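/-
The local data of the quotient of a mapping class group: framed classes and the twists.

`U m = V m × ℤ` is the lattice of framed classes, `act` the action of the mapping class group on it,
`T u` the image of the positive twist about a nonseparating curve with framed class `u`
(in the free group: `u = (clr x, 2 * (hs x).s + co (clr x) (clr x))` for a based loop `x = F (a_l)`).
The standard curves: `a_i` has class `(e i, 0)`, `b_i` has class `(f i, 2)`;
`TA i = T (e i, 0)`, `(TB i)⁻¹ = T (f i, 2)`, `(TC i j)⁻¹ = T (f i - e j, 2)`.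
-/
import Pool.Agent.H.MP_59b15d_al.h93c.Heis

set_option autoImplicit false

namespace Pool.Agent.H.MP_59b15d_al.H73X

open Pool.Agent.H.MP_59b15d_al.SP
open Pool.Agent.H.MP_59b15d_al.H93C

/-- Framed classes. -/
abbrev U (m : ℕ) : Type := V m × ℤ

variable {m : ℕ} {M0 Q : Type*} [Group M0] [Group Q]

/-- The framed classes of nonseparating curves. -/
def Om (act : M0 →* (U m ≃ₗ[ℤ] U m)) (l : Fin m) : Set (U m) := {u | ∃ g, act g (e l, 0) = u}

/-- The local data of a quotient `q` of the mapping class group `M0` of genus `m`. -/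
structure Loc (q : M0 →* Q) (act : M0 →* (U m ≃ₗ[ℤ] U m)) (T : U m → Q) (s : Q) (M : ℕ)
    (i j l : Fin m) : Prop where
  hij : i ≠ j
  hil : i ≠ l
  hjl : j ≠ l
  /-- the winding number coordinate is fixed -/
  fix : ∀ (g : M0) (w : ℤ), act g (0, w) = (0, w)
  /-- the action on homology is symplectic -/
  sp : ∀ (g : M0) (x y : U m), om (act g x).1 (act g y).1 = om x.1 y.1
  /-- the spin structure -/
  par : ∀ (g : M0) (x : U m), (2 : ℤ) ∣
    ((act g x).2 + co (act g x).1 (act g x).1) - (x.2 + co x.1 x.1)
  /-- the action on homology is onto the symplectic group -/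
  surj : ∀ A : Sp m, ∃ g : M0, ∀ x : U m, (act g x).1 = (A : V m ≃ₗ[ℤ] V m) x.1
  /-- pushing a curve over a handle -/
  two : (e l, 2) ∈ Om act l
  /-- the twists act by transvections -/
  tact : ∀ u ∈ Om act l, ∃ g : M0, q g = T u ∧ ∀ x : U m, act g x = x + om u.1 x.1 • (u - (0, 1))
  /-- the twists are permuted by conjugation -/
  eqv : ∀ (g : M0), ∀ u ∈ Om act l, q g * T u * (q g)⁻¹ = T (act g u)
  /-- reversal of the orientation of the curve -/
  sym : ∀ u ∈ Om act l, T ((0, 2) - u) = T u
  /-- the honest lantern -/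
  lan : T (e i + e j, 0) * T (e j + e l, 0) * T (e i + e l, 0) =
    T (e i, 0) * T (e j, 0) * T (e l, 0) * T (e i + e j + e l, 0)
  /-- the lantern with a separating curve of genus one -/
  lan2 : T (e l + e i, 2) * (T (e i, 2))⁻¹ =
    T (e l + e i, 0) * (T (e i, 0))⁻¹ * (T (e l, 2) * (T (e l, 0))⁻¹) * s⁻¹
  /-- the separating twist of genus one is central -/
  sc : ∀ y : Q, Commute s y
  /-- it is the sixth power of the product of two twists -/
  s6 : (T (e l, 0) * T (f l, 2)) ^ 6 = s
  hM : M ≠ 0
  /-- the congruence elements are central -/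
  cen : ∀ g : M0, (∀ x : U m, ∃ y : U m, act g x = x + (M : ℤ) • y) → ∀ y : Q, Commute (q g) y
  /-- the Torelli group is generated by the bounding pairs and separating twists of genus one -/
  gen : ∀ g : M0, (∀ x : U m, (act g x).1 = x.1) →
    q g ∈ Subgroup.closure ({t | ∃ u ∈ Om act l, t = T (u + (0, 2)) * (T u)⁻¹} ∪ {s})
  /-- the inner automorphisms -/
  inn : ∀ v : V m, ∃ g : M0, q g = 1 ∧
    ∀ x : U m, act g x = x + (0, 2 * ((m : ℤ) - 1) * om v x.1)

end Pool.Agent.H.MP_59b15d_al.H73X
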