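/-
Framed classes: translations and transitivity.
-/
import Pool.Agent.H.MP_59b15d_al.h73x.Loc
import Pool.Agent.H.MP_59b15d_al.pk.SpF

set_option autoImplicit false

namespace Pool.Agent.H.MP_59b15d_al.H73X

open Pool.Agent.H.MP_59b15d_al.SP
open Pool.Agent.H.MP_59b15d_al.H93C
open Pool.Agent.H.MP_59b15d_al.PC (Prim AdjA Iso3)

variable {m : ℕ} {M0 Q : Type*} [Group M0] [Group Q]

/-- The bounding pairs of genus one. -/
def Bs (act : M0 →* (U m ≃ₗ[ℤ] U m)) (T : U m → Q) (l : Fin m) : Set Q :=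
  {t | ∃ u ∈ Om act l, t = T (u + (0, 2)) * (T u)⁻¹}

variable {q : M0 →* Q} {act : M0 →* (U m ≃ₗ[ℤ] U m)} {T : U m → Q} {s : Q} {M : ℕ}
  {i j l : Fin m}

lemma act_mul (g h : M0) (x : U m) : act (g * h) x = act g (act h x) := by
  rw [map_mul]; rfl

lemma act_one (x : U m) : act 1 x = x := by
  rw [map_one]; rfl

lemma act_inv_apply (g : M0) (x : U m) : act g⁻¹ (act g x) = x := by
  rw [← act_mul, inv_mul_cancel, act_one]

lemma act_apply_inv (g : M0) (x : U m) : act g (act g⁻¹ x) = x := by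
  rw [← act_mul, mul_inv_cancel, act_one]

lemma Om_base (act : M0 →* (U m ≃ₗ[ℤ] U m)) (l : Fin m) : (e l, 0) ∈ Om act l :=
  ⟨1, act_one _⟩

lemma Om_act {u : U m} (hu : u ∈ Om act l) (g : M0) : act g u ∈ Om act l := by
  obtain ⟨k, rfl⟩ := hu
  exact ⟨g * k, act_mul _ _ _⟩

lemma U_split (x : U m) : x = (x.1, 0) + (0, x.2) := by
  apply Prod.ext
  · change x.1 = x.1 + 0
    rw [add_zero]
  · change x.2 = 0 + x.2
    rw [zero_add]

lemma co_e_e (k : Fin m) : co (e k : V m) (e k) = 0 := by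
  rw [co]
  refine Finset.sum_eq_zero fun x _ => ?_
  by_cases h : x = k
  · subst h; rw [e_self]; simp
  · rw [e_ne h]; simp

namespace Loc

variable (D : Loc q act T s M i j l)

include D

/-- The winding number coordinate is shifted by a function of the class. -/
lemma act_add (g : M0) (x : U m) (w : ℤ) : act g (x + (0, w)) = act g x + (0, w) := by
  rw [map_add, D.fix]

lemma act_fst (g : M0) (x y : U m) (h : x.1 = y.1) : (act g x).1 = (act g y).1 := by
  have h1 : x = y + (0, x.2 - y.2) := by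
    apply Prod.ext
    · change x.1 = y.1 + 0
      rw [h, add_zero]
    · change x.2 = y.2 + (x.2 - y.2)
      ring
  rw [h1, D.act_add]
  change (act g y).1 + 0 = _
  rw [add_zero]

lemma Om_add_two (h2 : (e l, 2) ∈ Om act l) {u : U m} (hu : u ∈ Om act l) :
    u + (0, 2) ∈ Om act l := by
  obtain ⟨g, rfl⟩ := hu
  obtain ⟨k, hk⟩ := h2
  refine ⟨g * k, ?_⟩
  rw [act_mul, hk, ← D.act_add]
  congr 1
  apply Prod.ext
  · change e l = e l + 0
    rw [add_zero]
  · rfl

lemma Om_sub_two (h2 : (e l, 2) ∈ Om act l) {u : U m} (hu : u ∈ Om act l) :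
    u + (0, -2) ∈ Om act l := by
  obtain ⟨g, rfl⟩ := hu
  obtain ⟨k, hk⟩ := h2
  refine ⟨g * k⁻¹, ?_⟩
  have h1 : (e l, 2) = ((e l, 0) : U m) + (0, 2) := by
    apply Prod.ext
    · change e l = e l + 0
      rw [add_zero]
    · rfl
  have h3 : act k⁻¹ (e l, 0) = (e l, 0) + (0, -2) := by
    have h4 := act_inv_apply (act := act) k (e l, 0)
    rw [hk, h1, D.act_add] at h4
    have h5 := eq_sub_of_add_eq h4
    rw [h5, sub_eq_add_neg]
    congr 1
  rw [act_mul, h3, D.act_add]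

lemma Om_add_even (h2 : (e l, 2) ∈ Om act l) {u : U m} (hu : u ∈ Om act l) (k : ℤ) :
    u + (0, 2 * k) ∈ Om act l := by
  have key : ∀ (u : U m) (a b : ℤ), u + (0, a) + (0, b) = u + (0, a + b) := by
    intro u a b
    apply Prod.ext
    · change u.1 + 0 + 0 = u.1 + 0
      rw [add_zero]
    · change u.2 + a + b = u.2 + (a + b)
      ring
  induction k using Int.induction_on with
  | zero =>
    have h : u + (0, 2 * 0) = u := by
      apply Prod.ext
      · exact add_zero _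
      · change u.2 + 2 * 0 = u.2
        ring
    rw [h]
    exact hu
  | succ k ih =>
    have h := D.Om_add_two h2 ih
    rw [key] at h
    have h3 : (2 * ((k : ℤ) + 1)) = 2 * (k : ℤ) + 2 := by ring
    rw [h3]
    exact h
  | pred k ih =>
    have h := D.Om_sub_two h2 ih
    rw [key] at h
    have h3 : (2 * (-(k : ℤ) - 1)) = 2 * (-(k : ℤ)) + -2 := by ring
    rw [h3]
    exact h

/-- The framed classes are the primitive classes with the right parity. -/
theorem Om_of (h2 : (e l, 2) ∈ Om act l) {v : V m} {w : ℤ} (hv : Prim v)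
    (hw : (2 : ℤ) ∣ w + co v v) : (v, w) ∈ Om act l := by
  obtain ⟨A, hA⟩ := PC.trans_one l hv
  obtain ⟨g, hg⟩ := D.surj A
  have h1 : (act g (e l, 0)).1 = v := by rw [hg]; exact hA
  have h3 := D.par g (e l, 0)
  rw [h1, co_e_e, add_zero, sub_zero] at h3
  obtain ⟨k, hk⟩ := (by omega : (2 : ℤ) ∣ w - (act g (e l, 0)).2)
  have h4 : (v, w) = act g (e l, 0) + (0, 2 * k) := by
    apply Prod.ext
    · change v = (act g (e l, 0)).1 + 0
      rw [h1, add_zero]
    · change w = (act g (e l, 0)).2 + 2 * k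
      omega
  rw [h4]
  exact D.Om_add_even h2 ⟨g, rfl⟩ k

lemma Om_prim {u : U m} (hu : u ∈ Om act l) : Prim u.1 := by
  obtain ⟨g, rfl⟩ := hu
  exact ⟨(act g (f l, 0)).1, by rw [D.sp, om_e_f]⟩

lemma Om_par {u : U m} (hu : u ∈ Om act l) : (2 : ℤ) ∣ u.2 + co u.1 u.1 := by
  obtain ⟨g, rfl⟩ := hu
  have h3 := D.par g (e l, 0)
  rwa [co_e_e, add_zero, sub_zero] at h3

/-- A bounding pair as a mapping class. -/
theorem BB_act (h2 : (e l, 2) ∈ Om act l) {u : U m} (hu : u ∈ Om act l) :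
    ∃ g : M0, q g = T (u + (0, 2)) * (T u)⁻¹ ∧ ∀ x : U m, act g x = x + (0, 2 * om u.1 x.1) := by
  obtain ⟨a, a1, a2⟩ := D.tact _ (D.Om_add_two h2 hu)
  obtain ⟨b, b1, b2⟩ := D.tact _ hu
  refine ⟨a * b⁻¹, by rw [map_mul, map_inv, a1, b1], fun x => ?_⟩
  have h1 : act b⁻¹ x = x - om u.1 x.1 • (u - (0, 1)) := by
    have h3 := b2 (x - om u.1 x.1 • (u - (0, 1)))
    have h4 : om u.1 (x - om u.1 x.1 • (u - (0, 1))).1 = om u.1 x.1 := by
      change om u.1 (x.1 - om u.1 x.1 • (u.1 - 0)) = _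
      rw [sub_zero, om_sub_right, om_smul_right, om_self, mul_zero, sub_zero]
    rw [h4, sub_add_cancel] at h3
    rw [← h3, act_inv_apply, h3]
  rw [act_mul, h1, a2]
  have h4 : om (u + (0, 2)).1 (x - om u.1 x.1 • (u - (0, 1))).1 = om u.1 x.1 := by
    change om (u.1 + 0) (x.1 - om u.1 x.1 • (u.1 - 0)) = _
    rw [add_zero, sub_zero, om_sub_right, om_smul_right, om_self, mul_zero, sub_zero]
  rw [h4]
  apply Prod.ext
  · change x.1 - om u.1 x.1 • (u.1 - 0) + om u.1 x.1 • (u.1 + 0 - 0) = x.1 + 0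
    module
  · change x.2 - om u.1 x.1 * (u.2 - 1) + om u.1 x.1 * (u.2 + 2 - 1) = x.2 + 2 * om u.1 x.1
    ring

end Loc

/-- The classes of the translations. -/
def Tors (q : M0 →* Q) (act : M0 →* (U m ≃ₗ[ℤ] U m)) (T : U m → Q) (l : Fin m) :
    AddSubgroup (V m) where
  carrier := {v | ∃ g : M0, (∀ x : U m, act g x = x + (0, 2 * om v x.1)) ∧
    q g ∈ Subgroup.closure (Bs act T l)}
  zero_mem' := by
    refine ⟨1, fun x => ?_, ?_⟩
    · rw [act_one, om_zero_left, mul_zero]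
      exact (add_zero x).symm
    · rw [map_one]
      exact Subgroup.one_mem _
  add_mem' := by
    rintro v w ⟨g, g1, g2⟩ ⟨k, k1, k2⟩
    refine ⟨g * k, fun x => ?_, ?_⟩
    · rw [act_mul, k1, g1]
      have h : (x + (0, 2 * om w x.1) : U m).1 = x.1 := add_zero _
      rw [h, om_add_left]
      apply Prod.ext
      · change x.1 + 0 + 0 = x.1 + 0
        rw [add_zero]
      · change x.2 + 2 * om w x.1 + 2 * om v x.1 = x.2 + 2 * (om v x.1 + om w x.1)
        ring
    · rw [map_mul]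
      exact Subgroup.mul_mem _ g2 k2
  neg_mem' := by
    rintro v ⟨g, g1, g2⟩
    refine ⟨g⁻¹, fun x => ?_, ?_⟩
    · have h1 := g1 (x + (0, 2 * om (-v) x.1))
      have h : (x + (0, 2 * om (-v) x.1) : U m).1 = x.1 := add_zero _
      rw [h, om_neg_left] at h1
      have h2 : x + (0, 2 * -om v x.1) + (0, 2 * om v x.1) = x := by
        apply Prod.ext
        · change x.1 + 0 + 0 = x.1
          rw [add_zero, add_zero]
        · change x.2 + 2 * -om v x.1 + 2 * om v x.1 = x.2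
          ring
      rw [h2] at h1
      rw [om_neg_left]
      nth_rewrite 1 [← h1]
      rw [act_inv_apply]
    · rw [map_inv]
      exact Subgroup.inv_mem _ g2

namespace Loc

variable (D : Loc q act T s M i j l)

include D

/-- (alpha) Every class is the class of a product of bounding pairs. -/
theorem tors (h2 : (e l, 2) ∈ Om act l) (v : V m) :
    ∃ g : M0, (∀ x : U m, act g x = x + (0, 2 * om v x.1)) ∧
      q g ∈ Subgroup.closure (Bs act T l) := by
  have key : ∀ v : V m, Prim v → v ∈ Tors q act T l := by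
    intro v hv
    have h1 : (v, -co v v) ∈ Om act l := D.Om_of h2 hv (by rw [neg_add_cancel]; exact dvd_zero _)
    obtain ⟨g, g1, g2⟩ := D.BB_act h2 h1
    exact ⟨g, g2, g1 ▸ Subgroup.subset_closure ⟨_, h1, rfl⟩⟩
  have h3 : v ∈ Tors q act T l := by
    rw [expand v]
    refine AddSubgroup.sum_mem _ fun k _ => AddSubgroup.add_mem _ ?_ ?_
    · exact AddSubgroup.zsmul_mem _ (key _ ⟨f k, om_e_f k⟩) _
    · exact AddSubgroup.zsmul_mem _ (key _ ⟨-e k, by rw [om_neg_right, om_f_e, neg_neg]⟩) _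
  exact h3

/-- (alpha) Transitivity. -/
theorem tr (h2 : (e l, 2) ∈ Om act l) (A : Sp m) (w : Fin m → ℤ)
    (hw : ∀ k, (2 : ℤ) ∣ w k + co (A (e k)) (A (e k))) :
    ∃ g : M0, (∀ x : U m, (act g x).1 = A x.1) ∧ ∀ k, act g (e k, 0) = (A (e k), w k) := by
  obtain ⟨g, hg⟩ := D.surj A
  have h1 : ∀ k, ∃ c : ℤ, w k = (act g (e k, 0)).2 + 2 * c := by
    intro k
    have h3 := D.par g (e k, 0)
    rw [co_e_e, add_zero, sub_zero, hg] at h3
    have h4 := hw k
    change (2 : ℤ) ∣ (act g (e k, 0)).2 + co (A (e k)) (A (e k)) at h3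
    generalize co (A (e k)) (A (e k)) = c0 at h3 h4
    generalize (act g (e k, 0)).2 = c1 at h3 ⊢
    obtain ⟨c, hc⟩ := (by omega : (2 : ℤ) ∣ w k - c1)
    exact ⟨c, by omega⟩
  choose c hc using h1
  obtain ⟨v, hv⟩ : ∃ v : V m, v = -∑ k, c k • f k := ⟨_, rfl⟩
  have hvk : ∀ k, om v (e k) = c k := by
    intro k
    rw [om_swap, om_e', hv]
    have h3 : ((-∑ k, c k • f k : V m) k).2 = -c k := by
      rw [Pi.neg_apply, Finset.sum_apply, Finset.sum_eq_single k]
      · rw [Pi.smul_apply, f_self]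
        simp
      · intro x _ hx
        rw [Pi.smul_apply, f_ne hx.symm, smul_zero]
      · intro h
        exact absurd (Finset.mem_univ k) h
    rw [h3, neg_neg]
  obtain ⟨t, t1, -⟩ := D.tors h2 (A v)
  refine ⟨t * g, fun x => ?_, fun k => ?_⟩
  · rw [act_mul, t1]
    change (act g x).1 + 0 = _
    rw [add_zero, hg]
  · rw [act_mul, t1]
    apply Prod.ext
    · change (act g (e k, 0)).1 + 0 = _
      rw [add_zero, hg]
    · change (act g (e k, 0)).2 + 2 * om (A v) (act g (e k, 0)).1 = w k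
      rw [hg, sp_om, hvk, hc k]

end Loc

end Pool.Agent.H.MP_59b15d_al.H73X
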