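/-
The local identities: the bounding pairs `B u`, the central element `sg`.
-/
import Pool.Agent.H.MP_59b15d_al.h73x.Tr
import Pool.Agent.H.MP_59b15d_al.pk.S3

set_option autoImplicit false

universe w

namespace Pool.Agent.H.MP_59b15d_al.H73X

open Pool.Agent.H.MP_59b15d_al.SP
open Pool.Agent.H.MP_59b15d_al.H93C
open Pool.Agent.H.MP_59b15d_al.PC (Prim AdjA Iso3 Uni)

variable {m : ℕ} {M0 : Type*} {Q : Type w} [Group M0] [Group Q]

/-- Elements which commute pairwise are the images of elements of a commutative group. -/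
lemma exists_comm {G : Type w} [Group G] (S : Set G) (hS : ∀ x ∈ S, ∀ y ∈ S, x * y = y * x) :
    ∃ (C : Type w) (_ : CommGroup C) (p : C →* G), Function.Injective p ∧
      ∀ x ∈ S, ∃ c, p c = x :=
  ⟨Subgroup.closure S, Subgroup.closureCommGroupOfComm hS, (Subgroup.closure S).subtype,
    Subtype.val_injective, fun x hx => ⟨⟨x, Subgroup.subset_closure hx⟩, rfl⟩⟩

/-- The bounding pair of genus one. -/
def B (T : U m → Q) (u : U m) : Q := T (u + (0, 2)) * (T u)⁻¹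

/-- The parity of a framed class. -/
def Par (u : U m) : Prop := (2 : ℤ) ∣ u.2 + co u.1 u.1

lemma co_comm_mod (v w : V m) (h : om v w = 0) : co v w = co w v := by
  have := om_eq_co v w
  omega

lemma Par.add {u u' : U m} (h : Par u) (h' : Par u') (h0 : om u.1 u'.1 = 0) : Par (u + u') := by
  unfold Par at *
  change (2 : ℤ) ∣ (u.2 + u'.2) + co (u.1 + u'.1) (u.1 + u'.1)
  rw [co_add_left, co_add_right, co_add_right, co_comm_mod _ _ h0]
  omega

lemma Par.neg {u : U m} (h : Par u) : Par (-u) := by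
  unfold Par at *
  change (2 : ℤ) ∣ (-u.2) + co (-u.1) (-u.1)
  rw [co_neg_left, co_neg_right]
  omega

lemma Par.sub {u u' : U m} (h : Par u) (h' : Par u') (h0 : om u.1 u'.1 = 0) : Par (u - u') := by
  rw [sub_eq_add_neg]
  exact h.add h'.neg (by change om u.1 (-u'.1) = 0; rw [om_neg_right, h0, neg_zero])

lemma Par.shift {u : U m} (h : Par u) (k : ℤ) : Par (u + (0, 2 * k)) := by
  unfold Par at *
  change (2 : ℤ) ∣ (u.2 + 2 * k) + co (u.1 + 0) (u.1 + 0)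
  rw [add_zero]
  omega

lemma sh_sh (u : U m) (a b : ℤ) : u + (0, a) + (0, b) = u + (0, a + b) := by
  apply Prod.ext
  · change u.1 + 0 + 0 = u.1 + 0
    rw [add_zero]
  · change u.2 + a + b = u.2 + (a + b)
    ring

lemma sh_zero (u : U m) : u + (0, 0) = u := add_zero u

lemma prim_neg {v : V m} (h : Prim v) : Prim (-v) := h.neg

variable {q : M0 →* Q} {act : M0 →* (U m ≃ₗ[ℤ] U m)} {T : U m → Q} {s : Q} {M : ℕ}
  {i j l : Fin m}

/-- The central element. -/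
def sg (T : U m → Q) (l : Fin m) : Q := B T (e l, 2) * (B T (e l, 0))⁻¹

namespace Loc

variable (D : Loc q act T s M i j l)

include D

lemma T_comm {u u' : U m} (hu : u ∈ Om act l) (hu' : u' ∈ Om act l) (h : om u.1 u'.1 = 0) :
    T u * T u' = T u' * T u := by
  obtain ⟨g, g1, g2⟩ := D.tact u hu
  have h1 := D.eqv g u' hu'
  rw [g1, g2, h, zero_smul, add_zero] at h1
  exact mul_inv_eq_iff_eq_mul.1 h1

lemma Om_iff {u : U m} : u ∈ Om act l ↔ Prim u.1 ∧ Par u :=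
  ⟨fun h => ⟨D.Om_prim h, D.Om_par h⟩, fun h => D.Om_of D.two h.1 h.2⟩

lemma Om_neg {u : U m} (hu : u ∈ Om act l) : -u ∈ Om act l := by
  rw [D.Om_iff] at *
  exact ⟨hu.1.neg, hu.2.neg⟩

lemma Om_two {u : U m} (hu : u ∈ Om act l) : u + (0, 2) ∈ Om act l := D.Om_add_two D.two hu

lemma T_neg {u : U m} (hu : u ∈ Om act l) : T (-u) = T (u + (0, 2)) := by
  have h := D.sym _ (D.Om_two hu)
  have h1 : ((0, 2) : U m) - (u + (0, 2)) = -u := by abel
  rwa [h1] at h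

lemma T_neg2 {u : U m} (hu : u ∈ Om act l) : T (-u + (0, 2)) = T u := by
  have h := D.sym _ hu
  have h1 : ((0, 2) : U m) - u = -u + (0, 2) := by abel
  rwa [h1] at h

lemma B_neg {u : U m} (hu : u ∈ Om act l) : B T (-u) = (B T u)⁻¹ := by
  rw [B, B, D.T_neg hu, D.T_neg2 hu, mul_inv_rev, inv_inv]

/-- Conjugation of a twist by a bounding pair. -/
lemma B_T {u u' : U m} (hu : u ∈ Om act l) (hu' : u' ∈ Om act l) :
    B T u * T u' * (B T u)⁻¹ = T (u' + (0, 2 * om u.1 u'.1)) := by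
  obtain ⟨g, g1, g3⟩ := D.BB_act D.two hu
  have h1 := D.eqv g u' hu'
  rw [g1, g3] at h1
  exact h1

lemma B_B' {u u' : U m} (hu : u ∈ Om act l) (hu' : u' ∈ Om act l) :
    B T u * B T u' * (B T u)⁻¹ = B T (u' + (0, 2 * om u.1 u'.1)) := by
  have h1 := D.B_T hu hu'
  have h3 := D.B_T hu (D.Om_two hu')
  have h4 : om u.1 (u' + (0, 2) : U m).1 = om u.1 u'.1 := by
    change om u.1 (u'.1 + 0) = _
    rw [add_zero]
  rw [h4, sh_sh, add_comm (2 : ℤ), ← sh_sh] at h3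
  have h5 : B T u * B T u' * (B T u)⁻¹ =
      (B T u * T (u' + (0, 2)) * (B T u)⁻¹) * (B T u * T u' * (B T u)⁻¹)⁻¹ := by
    rw [B, B]; group
  rw [h5, h1, h3, B]

/-- Conjugation of a bounding pair by a mapping class. -/
lemma q_B (g : M0) {u : U m} (hu : u ∈ Om act l) :
    q g * B T u * (q g)⁻¹ = B T (act g u) := by
  have h1 := D.eqv g _ (D.Om_two hu)
  have h3 := D.eqv g _ hu
  rw [D.act_add] at h1
  have h5 : q g * B T u * (q g)⁻¹ = (q g * T (u + (0, 2)) * (q g)⁻¹) * (q g * T u * (q g)⁻¹)⁻¹ := by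
    rw [B]; group
  rw [h5, h1, h3, B]

/-- The lantern. -/
theorem lan3 {u1 u2 u3 : U m} (h : Iso3 u1.1 u2.1 u3.1) (p1 : Par u1) (p2 : Par u2)
    (p3 : Par u3) : T (u1 + u2) * T (u2 + u3) * T (u1 + u3) =
      T u1 * T u2 * T u3 * T (u1 + u2 + u3) := by
  classical
  obtain ⟨A, a1, a2, a3⟩ := PC.trans_three D.hij D.hil D.hjl h
  obtain ⟨g, g1, g3⟩ := D.tr D.two A (fun k => if k = i then u1.2 else if k = j then u2.2 else
    if k = l then u3.2 else -co (A (e k)) (A (e k))) (fun k => by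
      by_cases hi : k = i
      · rw [if_pos hi, hi, a1]; exact p1
      · rw [if_neg hi]
        by_cases hj : k = j
        · rw [if_pos hj, hj, a2]; exact p2
        · rw [if_neg hj]
          by_cases hl : k = l
          · rw [if_pos hl, hl, a3]; exact p3
          · rw [if_neg hl, neg_add_cancel]; exact dvd_zero _)
  have e1 : act g (e i, 0) = u1 := by
    rw [g3, if_pos rfl, a1]
  have e2 : act g (e j, 0) = u2 := by
    rw [g3, if_neg D.hij.symm, if_pos rfl, a2]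
  have e3 : act g (e l, 0) = u3 := by
    rw [g3, if_neg D.hil.symm, if_neg D.hjl.symm, if_pos rfl, a3]
  have pe : ∀ k : Fin m, Par ((e k, 0) : U m) := by
    intro k
    unfold Par
    change (2 : ℤ) ∣ 0 + co (e k) (e k)
    rw [co_e_e]
    exact dvd_zero _
  have oe : ∀ k k' : Fin m, om ((e k, 0) : U m).1 ((e k', 0) : U m).1 = 0 := fun k k' =>
    om_e_e k k'
  have s1 : ∀ k : Fin m, ((e k, 0) : U m) ∈ Om act l := fun k =>
    D.Om_of D.two ⟨f k, om_e_f k⟩ (pe k)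
  have s2 : ∀ k k' : Fin m, k ≠ k' → ((e k, 0) : U m) + (e k', 0) ∈ Om act l := by
    intro k k' hk
    refine D.Om_of D.two ⟨f k, ?_⟩ ((pe k).add (pe k') (oe k k'))
    rw [om_add_left, om_e_f, om_e_f_ne hk.symm, add_zero]
  have s3 : ((e i, 0) : U m) + (e j, 0) + (e l, 0) ∈ Om act l := by
    refine D.Om_of D.two ⟨f i, ?_⟩ (((pe i).add (pe j) (oe i j)).add (pe l) ?_)
    · change om (e i + e j + e l) (f i) = 1
      rw [om_add_left, om_add_left, om_e_f, om_e_f_ne D.hij.symm, om_e_f_ne D.hil.symm]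
      rfl
    · change om (e i + e j) (e l) = 0
      rw [om_add_left, om_e_e, om_e_e, add_zero]
  have c1 : ∀ k k' : Fin m, ((e k + e k', 0) : U m) = (e k, 0) + (e k', 0) := fun k k' => rfl
  have c2 : ((e i + e j + e l, 0) : U m) = (e i, 0) + (e j, 0) + (e l, 0) := rfl
  have h3 := congrArg (fun x => q g * x * (q g)⁻¹) D.lan
  rw [c1, c1, c1, c2] at h3
  have k3 : q g * (T ((e i, 0) + (e j, 0)) * T ((e j, 0) + (e l, 0)) * T ((e i, 0) + (e l, 0))) *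
      (q g)⁻¹ = (q g * T ((e i, 0) + (e j, 0)) * (q g)⁻¹) *
      (q g * T ((e j, 0) + (e l, 0)) * (q g)⁻¹) * (q g * T ((e i, 0) + (e l, 0)) * (q g)⁻¹) := by
    group
  have k4 : q g * (T (e i, 0) * T (e j, 0) * T (e l, 0) * T ((e i, 0) + (e j, 0) + (e l, 0))) *
      (q g)⁻¹ = (q g * T (e i, 0) * (q g)⁻¹) * (q g * T (e j, 0) * (q g)⁻¹) *
      (q g * T (e l, 0) * (q g)⁻¹) * (q g * T ((e i, 0) + (e j, 0) + (e l, 0)) * (q g)⁻¹) := by
    group
  rw [k3, k4, D.eqv _ _ (s2 i j D.hij), D.eqv _ _ (s2 j l D.hjl), D.eqv _ _ (s2 i l D.hil),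
    D.eqv _ _ (s1 i), D.eqv _ _ (s1 j), D.eqv _ _ (s1 l), D.eqv _ _ s3] at h3
  simp only [map_add, e1, e2, e3] at h3
  exact h3

/-- The lantern with a separating curve. -/
theorem lan4 {u1 u2 : U m} (h : AdjA u1.1 u2.1) (p1 : Par u1) (p2 : Par u2) :
    T (u1 + u2 + (0, 2)) * (T (u2 + (0, 2)))⁻¹ = T (u1 + u2) * (T u2)⁻¹ * B T u1 * s⁻¹ := by
  classical
  obtain ⟨A, a1, a2⟩ := PC.trans_two D.hil.symm h
  obtain ⟨g, g1, g3⟩ := D.tr D.two A (fun k => if k = l then u1.2 else if k = i then u2.2 else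
    -co (A (e k)) (A (e k))) (fun k => by
      by_cases hi : k = l
      · rw [if_pos hi, hi, a1]; exact p1
      · rw [if_neg hi]
        by_cases hj : k = i
        · rw [if_pos hj, hj, a2]; exact p2
        · rw [if_neg hj, neg_add_cancel]; exact dvd_zero _)
  have e1 : act g (e l, 0) = u1 := by
    rw [g3, if_pos rfl, a1]
  have e2 : act g (e i, 0) = u2 := by
    rw [g3, if_neg D.hil, if_pos rfl, a2]
  have pe : ∀ k : Fin m, Par ((e k, 0) : U m) := by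
    intro k
    unfold Par
    change (2 : ℤ) ∣ 0 + co (e k) (e k)
    rw [co_e_e]
    exact dvd_zero _
  have s1 : ∀ k : Fin m, ((e k, 0) : U m) ∈ Om act l := fun k =>
    D.Om_of D.two ⟨f k, om_e_f k⟩ (pe k)
  have s2 : ((e l, 0) : U m) + (e i, 0) ∈ Om act l := by
    refine D.Om_of D.two ⟨f l, ?_⟩ ((pe l).add (pe i) (om_e_e l i))
    rw [om_add_left, om_e_f, om_e_f_ne D.hil, add_zero]
  have c1 : ((e l + e i, 2) : U m) = (e l, 0) + (e i, 0) + (0, 2) := by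
    apply Prod.ext
    · change e l + e i = e l + e i + 0
      rw [add_zero]
    · rfl
  have c2 : ((e l + e i, 0) : U m) = (e l, 0) + (e i, 0) := rfl
  have c3 : ∀ k : Fin m, ((e k, 2) : U m) = (e k, 0) + (0, 2) := by
    intro k
    apply Prod.ext
    · change e k = e k + 0
      rw [add_zero]
    · rfl
  have h3 := congrArg (fun x => q g * x * (q g)⁻¹) D.lan2
  rw [c1, c2, c3, c3] at h3
  have k3 : q g * (T ((e l, 0) + (e i, 0) + (0, 2)) * (T ((e i, 0) + (0, 2)))⁻¹) * (q g)⁻¹ =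
      (q g * T ((e l, 0) + (e i, 0) + (0, 2)) * (q g)⁻¹) *
      (q g * T ((e i, 0) + (0, 2)) * (q g)⁻¹)⁻¹ := by group
  have k4 : q g * (T ((e l, 0) + (e i, 0)) * (T (e i, 0))⁻¹ *
      (T ((e l, 0) + (0, 2)) * (T (e l, 0))⁻¹) * s⁻¹) * (q g)⁻¹ =
      (q g * T ((e l, 0) + (e i, 0)) * (q g)⁻¹) * (q g * T (e i, 0) * (q g)⁻¹)⁻¹ *
      ((q g * T ((e l, 0) + (0, 2)) * (q g)⁻¹) * (q g * T (e l, 0) * (q g)⁻¹)⁻¹) * s⁻¹ := by
    have hs : (q g)⁻¹ * s⁻¹ = s⁻¹ * (q g)⁻¹ := (D.sc (q g)).inv_inv.eq.symm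
    calc _ = q g * T ((e l, 0) + (e i, 0)) * (T (e i, 0))⁻¹ *
        (T ((e l, 0) + (0, 2)) * (T (e l, 0))⁻¹) * (s⁻¹ * (q g)⁻¹) := by group
      _ = q g * T ((e l, 0) + (e i, 0)) * (T (e i, 0))⁻¹ *
        (T ((e l, 0) + (0, 2)) * (T (e l, 0))⁻¹) * ((q g)⁻¹ * s⁻¹) := by rw [hs]
      _ = _ := by group
  rw [k3, k4, D.eqv _ _ (D.Om_two s2), D.eqv _ _ (D.Om_two (s1 i)), D.eqv _ _ s2,
    D.eqv _ _ (s1 i), D.eqv _ _ (D.Om_two (s1 l)), D.eqv _ _ (s1 l)] at h3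
  simp only [map_add, e1, e2, D.fix] at h3
  exact h3

end Loc

/-- The span of three vectors. -/
def Sp3 (v1 v2 v3 : V m) (v : V m) : Prop := ∃ a b c : ℤ, v = a • v1 + b • v2 + c • v3

lemma Sp3.om_zero {v1 v2 v3 v w : V m} (h12 : om v1 v2 = 0) (h13 : om v1 v3 = 0)
    (h23 : om v2 v3 = 0) (hv : Sp3 v1 v2 v3 v) (hw : Sp3 v1 v2 v3 w) : om v w = 0 := by
  obtain ⟨a, b, c, rfl⟩ := hv
  obtain ⟨a', b', c', rfl⟩ := hw
  have h21 : om v2 v1 = 0 := by rw [om_swap, h12, neg_zero]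
  have h31 : om v3 v1 = 0 := by rw [om_swap, h13, neg_zero]
  have h32 : om v3 v2 = 0 := by rw [om_swap, h23, neg_zero]
  simp only [om_add_left, om_add_right, om_smul_left, om_smul_right, om_self, h12, h13, h23, h21,
    h31, h32]
  ring

namespace Loc

variable (D : Loc q act T s M i j l)

include D

/-- All twists with classes in an isotropic subgroup lie in a commutative group. -/
lemma comm3 {v1 v2 v3 : V m} (h12 : om v1 v2 = 0) (h13 : om v1 v3 = 0) (h23 : om v2 v3 = 0) :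
    ∃ (C : Type w) (_ : CommGroup C) (p : C →* Q), Function.Injective p ∧
      ∀ u : U m, u ∈ Om act l → Sp3 v1 v2 v3 u.1 → ∃ c, p c = T u := by
  obtain ⟨C, hC, p, h1, h2⟩ := exists_comm
    {x | ∃ u : U m, u ∈ Om act l ∧ Sp3 v1 v2 v3 u.1 ∧ x = T u} (by
      rintro _ ⟨u, hu, hu', rfl⟩ _ ⟨w, hw, hw', rfl⟩
      exact D.T_comm hu hw (Sp3.om_zero h12 h13 h23 hu' hw'))
  exact ⟨C, hC, p, h1, fun u hu hu' => h2 _ ⟨u, hu, hu', rfl⟩⟩

/-- A third vector for a pair. -/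
lemma exists_third {v1 v2 : V m} (h : AdjA v1 v2) : ∃ v3 : V m, Iso3 v1 v2 v3 := by
  obtain ⟨A, a1, a2⟩ := PC.trans_two D.hij h
  refine ⟨A (e l), ?_, ?_, ?_, ⟨A (f i), ?_, ?_, ?_⟩, ⟨A (f j), ?_, ?_, ?_⟩,
    ⟨A (f l), ?_, ?_, ?_⟩⟩
  all_goals
    first
    | rw [← a1, ← a2, sp_om]
    | rw [← a1, sp_om]
    | rw [← a2, sp_om]
    | rw [sp_om]
  all_goals
    first
    | exact om_e_e _ _
    | exact om_e_f _
    | exact om_e_f_ne D.hij
    | exact om_e_f_ne D.hij.symm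
    | exact om_e_f_ne D.hil
    | exact om_e_f_ne D.hil.symm
    | exact om_e_f_ne D.hjl
    | exact om_e_f_ne D.hjl.symm

/-- The parallelogram identity. -/
theorem star {u1 u2 : U m} (h : AdjA u1.1 u2.1) (p1 : Par u1) (p2 : Par u2) :
    T (u1 - u2) * T (u1 + u2) = T u1 * T u1 * T (-u2) * T u2 := by
  obtain ⟨v3, h3⟩ := D.exists_third h
  obtain ⟨u3, hu3, p3⟩ : ∃ u3 : U m, u3.1 = v3 ∧ Par u3 :=
    ⟨(v3, -co v3 v3), rfl, by unfold Par; change (2 : ℤ) ∣ -co v3 v3 + co v3 v3; rw [neg_add_cancel]; exact dvd_zero _⟩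
  rw [← hu3] at h3
  obtain ⟨h12, h13, h23, ⟨a, a1, a2, a3⟩, ⟨b, b1, b2, b3⟩, c, c1, c2, c3⟩ := h3
  have h21 : om u2.1 u1.1 = 0 := by rw [om_swap, h12, neg_zero]
  have h31 : om u3.1 u1.1 = 0 := by rw [om_swap, h13, neg_zero]
  have h32 : om u3.1 u2.1 = 0 := by rw [om_swap, h23, neg_zero]
  -- first lantern: `u1, u3, -u2`
  have L1 := D.lan3 (u1 := u1) (u2 := u3) (u3 := -u2)
    ⟨h13, by change om u1.1 (-u2.1) = 0; rw [om_neg_right, h12, neg_zero],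
      by change om u3.1 (-u2.1) = 0; rw [om_neg_right, h32, neg_zero],
      ⟨a, a1, a3, by change om (-u2.1) a = 0; rw [om_neg_left, a2, neg_zero]⟩,
      ⟨c, c1, c3, by change om (-u2.1) c = 0; rw [om_neg_left, c2, neg_zero]⟩,
      ⟨-b, by rw [om_neg_right, b1, neg_zero], by rw [om_neg_right, b3, neg_zero],
        by change om (-u2.1) (-b) = 1; rw [om_neg_left, om_neg_right, b2, neg_neg]⟩⟩ p1 p3 p2.neg
  -- second lantern: `u1, u3 - u2, u2`
  have L2 := D.lan3 (u1 := u1) (u2 := u3 - u2) (u3 := u2)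
    ⟨by change om u1.1 (u3.1 - u2.1) = 0; rw [om_sub_right, h13, h12, sub_zero], h12,
      by change om (u3.1 - u2.1) u2.1 = 0; rw [om_sub_left, h32, om_self, sub_zero],
      ⟨a, a1, by change om (u3.1 - u2.1) a = 0; rw [om_sub_left, a3, a2, sub_zero], a2⟩,
      ⟨c, c1, by change om (u3.1 - u2.1) c = 1; rw [om_sub_left, c3, c2, sub_zero], c2⟩,
      ⟨b + c, by rw [om_add_right, b1, c1, add_zero],
        by
          change om (u3.1 - u2.1) (b + c) = 0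
          rw [om_sub_left, om_add_right, om_add_right, b3, b2, c3, c2]
          ring,
        by rw [om_add_right, b2, c2, add_zero]⟩⟩ p1 (p3.sub p2 h32) p2
  have r1 : u3 - u2 + u2 = u3 := by abel
  have r2 : u1 + (u3 - u2) = u1 + u3 + -u2 := by abel
  have r3 : u1 + u3 + -u2 + u2 = u1 + u3 := by abel
  have r4 : u3 + -u2 = u3 - u2 := by abel
  have r5 : u1 + -u2 = u1 - u2 := by abel
  rw [r2, r1, r3] at L2
  rw [r4, r5] at L1
  obtain ⟨C, hC, p, hp, hc⟩ := D.comm3 h12 h13 h23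
  -- all classes
  have m1 : u1 ∈ Om act l := D.Om_of D.two ⟨a, a1⟩ p1
  have m2 : u2 ∈ Om act l := D.Om_of D.two ⟨b, b2⟩ p2
  have m3 : u3 ∈ Om act l := D.Om_of D.two ⟨c, c3⟩ p3
  have m4 : u1 - u2 ∈ Om act l := D.Om_of D.two
    ⟨a, by change om (u1.1 - u2.1) a = 1; rw [om_sub_left, a1, a2, sub_zero]⟩ (p1.sub p2 h12)
  have m5 : u1 + u2 ∈ Om act l := D.Om_of D.two
    ⟨a, by change om (u1.1 + u2.1) a = 1; rw [om_add_left, a1, a2, add_zero]⟩ (p1.add p2 h12)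
  have m6 : u3 - u2 ∈ Om act l := D.Om_of D.two
    ⟨c, by change om (u3.1 - u2.1) c = 1; rw [om_sub_left, c3, c2, sub_zero]⟩ (p3.sub p2 h32)
  have m7 : u1 + u3 ∈ Om act l := D.Om_of D.two
    ⟨a, by change om (u1.1 + u3.1) a = 1; rw [om_add_left, a1, a3, add_zero]⟩ (p1.add p3 h13)
  have m8 : u1 + u3 + -u2 ∈ Om act l := D.Om_of D.two
    ⟨a, by
      change om (u1.1 + u3.1 + -u2.1) a = 1
      rw [om_add_left, om_add_left, om_neg_left, a1, a2, a3, neg_zero, add_zero, add_zero]⟩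
    ((p1.add p3 h13).add p2.neg (by
      change om (u1.1 + u3.1) (-u2.1) = 0
      rw [om_neg_right, om_add_left, h12, h32, add_zero, neg_zero]))
  have m9 : -u2 ∈ Om act l := D.Om_neg m2
  obtain ⟨x1, y1⟩ := hc u1 m1 ⟨1, 0, 0, by module⟩
  obtain ⟨x2, y2⟩ := hc u2 m2 ⟨0, 1, 0, by module⟩
  obtain ⟨x3, y3⟩ := hc u3 m3 ⟨0, 0, 1, by module⟩
  obtain ⟨x4, y4⟩ := hc (u1 - u2) m4 ⟨1, -1, 0, by change u1.1 - u2.1 = _; module⟩
  obtain ⟨x5, y5⟩ := hc (u1 + u2) m5 ⟨1, 1, 0, by change u1.1 + u2.1 = _; module⟩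
  obtain ⟨x6, y6⟩ := hc (u3 - u2) m6 ⟨0, -1, 1, by change u3.1 - u2.1 = _; module⟩
  obtain ⟨x7, y7⟩ := hc (u1 + u3) m7 ⟨1, 0, 1, by change u1.1 + u3.1 = _; module⟩
  obtain ⟨x8, y8⟩ := hc (u1 + u3 + -u2) m8 ⟨1, -1, 1, by change u1.1 + u3.1 + -u2.1 = _; module⟩
  obtain ⟨x9, y9⟩ := hc (-u2) m9 ⟨0, -1, 0, by change -u2.1 = _; module⟩
  rw [← y1, ← y3, ← y4, ← y6, ← y7, ← y8, ← y9, ← map_mul, ← map_mul, ← map_mul, ← map_mul,
    ← map_mul] at L1
  rw [← y1, ← y2, ← y3, ← y5, ← y6, ← y7, ← y8, ← map_mul, ← map_mul, ← map_mul, ← map_mul,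
    ← map_mul] at L2
  rw [← y1, ← y2, ← y4, ← y5, ← y9, ← map_mul, ← map_mul, ← map_mul, ← map_mul]
  have L1' := hp L1
  have L2' := hp L2
  congr 1
  have h4 : (x4 * x5) * (x7 * x6 * x8 * x3) = (x1 * x1 * x9 * x2) * (x7 * x6 * x8 * x3) := by
    calc (x4 * x5) * (x7 * x6 * x8 * x3) = (x7 * x6 * x4) * (x8 * x3 * x5) := by ac_rfl
      _ = (x1 * x3 * x9 * x8) * (x1 * x6 * x2 * x7) := by rw [L1', L2']
      _ = _ := by ac_rfl
  exact mul_right_cancel h4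

lemma adj_neg {v w : V m} (h : AdjA v w) : AdjA v (-w) := by
  obtain ⟨h0, ⟨a, a1, a2⟩, b, b1, b2⟩ := h
  exact ⟨by rw [om_neg_right, h0, neg_zero], ⟨a, a1, by rw [om_neg_left, a2, neg_zero]⟩,
    -b, by rw [om_neg_right, b1, neg_zero], by rw [om_neg_left, om_neg_right, b2, neg_neg]⟩

lemma Om_adj {u1 u2 : U m} (h : AdjA u1.1 u2.1) (p1 : Par u1) (p2 : Par u2) :
    u1 ∈ Om act l ∧ u2 ∈ Om act l :=
  ⟨D.Om_of D.two h.2.left p1, D.Om_of D.two h.2.right p2⟩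

/-- Additivity of the bounding pairs. -/
theorem B_sub {u1 u2 : U m} (h : AdjA u1.1 u2.1) (p1 : Par u1) (p2 : Par u2) :
    B T (u1 - u2) = B T u1 * (B T u2)⁻¹ := by
  have L1 := D.star h p1 p2
  have L2 := D.star h.symm p2 p1
  obtain ⟨m1, m2⟩ := D.Om_adj h p1 p2
  have hh := h
  obtain ⟨h12, ⟨a, a1, a2⟩, b, b1, b2⟩ := hh
  have h21 : om u2.1 u1.1 = 0 := by rw [om_swap, h12, neg_zero]
  have m4 : u1 - u2 ∈ Om act l := D.Om_of D.two
    ⟨a, by change om (u1.1 - u2.1) a = 1; rw [om_sub_left, a1, a2, sub_zero]⟩ (p1.sub p2 h12)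
  have m5 : u1 + u2 ∈ Om act l := D.Om_of D.two
    ⟨a, by change om (u1.1 + u2.1) a = 1; rw [om_add_left, a1, a2, add_zero]⟩ (p1.add p2 h12)
  have e1 : T (u2 - u1) = T (u1 - u2 + (0, 2)) := by
    rw [← D.T_neg m4, neg_sub]
  rw [D.T_neg m2] at L1
  rw [D.T_neg m1, e1, add_comm u2 u1] at L2
  obtain ⟨C, hC, p, hp, hc⟩ := D.comm3 (v1 := u1.1) (v2 := u2.1) (v3 := 0) h12
    (om_zero_right _) (om_zero_right _)
  obtain ⟨x1, y1⟩ := hc u1 m1 ⟨1, 0, 0, by module⟩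
  obtain ⟨x2, y2⟩ := hc u2 m2 ⟨0, 1, 0, by module⟩
  obtain ⟨x3, y3⟩ := hc (u1 + (0, 2)) (D.Om_two m1) ⟨1, 0, 0, by change u1.1 + 0 = _; module⟩
  obtain ⟨x4, y4⟩ := hc (u2 + (0, 2)) (D.Om_two m2) ⟨0, 1, 0, by change u2.1 + 0 = _; module⟩
  obtain ⟨x5, y5⟩ := hc (u1 - u2) m4 ⟨1, -1, 0, by change u1.1 - u2.1 = _; module⟩
  obtain ⟨x6, y6⟩ := hc (u1 + u2) m5 ⟨1, 1, 0, by change u1.1 + u2.1 = _; module⟩
  obtain ⟨x7, y7⟩ := hc (u1 - u2 + (0, 2)) (D.Om_two m4)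
    ⟨1, -1, 0, by change u1.1 - u2.1 + 0 = _; module⟩
  rw [← y5, ← y6, ← y1, ← y4, ← y2, ← map_mul, ← map_mul, ← map_mul, ← map_mul] at L1
  rw [← y7, ← y6, ← y2, ← y3, ← y1, ← map_mul, ← map_mul, ← map_mul, ← map_mul] at L2
  rw [B, B, B, ← y7, ← y5, ← y3, ← y1, ← y4, ← y2, ← map_inv, ← map_inv, ← map_inv, ← map_mul,
    ← map_mul, ← map_mul, ← map_inv, ← map_mul]
  have L1' := hp L1
  have L2' := hp L2
  congr 1
  have h5 : x7 * x5⁻¹ = (x7 * x6) * (x5 * x6)⁻¹ := by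
    rw [mul_inv_rev]
    group
  rw [h5, L1', L2']
  simp only [mul_inv_rev, inv_inv]
  have h6 : x2 * x2 * x3 * x1 * (x2⁻¹ * (x4⁻¹ * (x1⁻¹ * x1⁻¹))) =
      (x2 * x2⁻¹) * (x1 * x1⁻¹) * (x3 * x1⁻¹ * (x2 * x4⁻¹)) := by ac_rfl
  rw [h6, mul_inv_cancel, mul_inv_cancel, one_mul, one_mul]

theorem B_add {u1 u2 : U m} (h : AdjA u1.1 u2.1) (p1 : Par u1) (p2 : Par u2) :
    B T (u1 + u2) = B T u1 * B T u2 := by
  have h1 := D.B_sub (u1 := u1) (u2 := -u2) (D.adj_neg h) p1 p2.neg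
  rw [D.B_neg (D.Om_adj h p1 p2).2, inv_inv, sub_neg_eq_add] at h1
  exact h1

lemma B_B_comm {u1 u2 : U m} (h : AdjA u1.1 u2.1) (p1 : Par u1) (p2 : Par u2) :
    B T u1 * B T u2 = B T u2 * B T u1 := by
  rw [← D.B_add h p1 p2, add_comm, D.B_add h.symm p2 p1]

/-- The separating twists of genus one are trivial. -/
theorem s_one : s = 1 := by
  have hA : AdjA ((e l, 0) : U m).1 ((e i, 0) : U m).1 :=
    ⟨om_e_e _ _, ⟨f l, om_e_f l, om_e_f_ne D.hil⟩, f i, om_e_f_ne D.hil.symm, om_e_f i⟩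
  have pe : ∀ k : Fin m, Par ((e k, 0) : U m) := by
    intro k
    unfold Par
    change (2 : ℤ) ∣ 0 + co (e k) (e k)
    rw [co_e_e]
    exact dvd_zero _
  obtain ⟨u1, hu1⟩ : ∃ u1 : U m, u1 = (e l, 0) := ⟨_, rfl⟩
  obtain ⟨u2, hu2⟩ : ∃ u2 : U m, u2 = (e i, 0) := ⟨_, rfl⟩
  have p1 := pe l
  have p2 := pe i
  rw [← hu1] at hA p1
  rw [← hu2] at hA p2
  have L := D.lan4 hA p1 p2
  have L2 := D.B_add hA p1 p2
  obtain ⟨m1, m2⟩ := D.Om_adj hA p1 p2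
  have hh := hA
  obtain ⟨h12, ⟨a, a1, a2⟩, b, b1, b2⟩ := hh
  have m5 : u1 + u2 ∈ Om act l := D.Om_of D.two
    ⟨a, by change om (u1.1 + u2.1) a = 1; rw [om_add_left, a1, a2, add_zero]⟩ (p1.add p2 h12)
  obtain ⟨C, hC, p, hp, hc⟩ := D.comm3 (v1 := u1.1) (v2 := u2.1) (v3 := 0) h12
    (om_zero_right _) (om_zero_right _)
  obtain ⟨x1, y1⟩ := hc u1 m1 ⟨1, 0, 0, by module⟩
  obtain ⟨x2, y2⟩ := hc u2 m2 ⟨0, 1, 0, by module⟩
  obtain ⟨x3, y3⟩ := hc (u1 + (0, 2)) (D.Om_two m1) ⟨1, 0, 0, by change u1.1 + 0 = _; module⟩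
  obtain ⟨x4, y4⟩ := hc (u2 + (0, 2)) (D.Om_two m2) ⟨0, 1, 0, by change u2.1 + 0 = _; module⟩
  obtain ⟨x6, y6⟩ := hc (u1 + u2) m5 ⟨1, 1, 0, by change u1.1 + u2.1 = _; module⟩
  obtain ⟨x7, y7⟩ := hc (u1 + u2 + (0, 2)) (D.Om_two m5)
    ⟨1, 1, 0, by change u1.1 + u2.1 + 0 = _; module⟩
  rw [B, B, B, ← y7, ← y6, ← y3, ← y1, ← y4, ← y2, ← map_inv, ← map_inv, ← map_inv, ← map_mul,
    ← map_mul, ← map_mul, ← map_mul] at L2
  have L2' := hp L2
  rw [B, ← y7, ← y4, ← y6, ← y2, ← y3, ← y1] at L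
  have h3 : s = (p x7 * (p x4)⁻¹)⁻¹ * (p x6 * (p x2)⁻¹ * (p x3 * (p x1)⁻¹)) := by
    rw [L]; group
  rw [h3, ← map_one p, ← map_inv, ← map_inv, ← map_inv, ← map_mul, ← map_mul, ← map_mul,
    ← map_mul, ← map_inv, ← map_mul]
  congr 1
  have h4 : x3 * x1⁻¹ = x7 * x6⁻¹ * (x4 * x2⁻¹)⁻¹ := by rw [L2']; group
  rw [h4]
  simp only [mul_inv_rev, inv_inv]
  have h5 : x4 * x7⁻¹ * (x6 * x2⁻¹ * (x7 * x6⁻¹ * (x2 * x4⁻¹))) =
      (x4 * x4⁻¹) * (x7 * x7⁻¹) * ((x6 * x6⁻¹) * (x2 * x2⁻¹)) := by ac_rfl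
  rw [h5]
  simp only [mul_inv_cancel, mul_one]

lemma sg_adj {u1 u2 : U m} (h : AdjA u1.1 u2.1) (p1 : Par u1) (p2 : Par u2) :
    B T (u1 + (0, 2)) * (B T u1)⁻¹ = B T (u2 + (0, 2)) * (B T u2)⁻¹ := by
  have q1 : Par (u1 + (0, 2)) := by have := p1.shift 1; rwa [mul_one] at this
  have q2 : Par (u2 + (0, 2)) := by have := p2.shift 1; rwa [mul_one] at this
  have h1 : AdjA (u1 + (0, 2) : U m).1 u2.1 := by
    change AdjA (u1.1 + 0) u2.1
    rwa [add_zero]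
  have h2 : AdjA u1.1 (u2 + (0, 2) : U m).1 := by
    change AdjA u1.1 (u2.1 + 0)
    rwa [add_zero]
  have a1 := D.B_add h1 q1 p2
  have a2 := D.B_add h2 p1 q2
  have a3 : u1 + (0, 2) + u2 = u1 + (u2 + (0, 2)) := by abel
  rw [a3, a2] at a1
  have c1 := D.B_B_comm h p1 p2
  have c2 := D.B_B_comm h2 p1 q2
  -- a1 : B u1 * B (u2 + 2) = B (u1 + 2) * B u2
  have a4 : B T (u1 + (0, 2)) = B T u1 * B T (u2 + (0, 2)) * (B T u2)⁻¹ :=
    eq_mul_inv_of_mul_eq a1.symm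
  have c3 : B T u1 * (B T u2)⁻¹ = (B T u2)⁻¹ * B T u1 := by
    rw [mul_inv_eq_iff_eq_mul, mul_assoc, c1, inv_mul_cancel_left]
  rw [a4, mul_inv_eq_iff_eq_mul, c2, mul_assoc, c3, mul_assoc]

/-- The central element. -/
theorem sg_eq {u : U m} (hu : u ∈ Om act l) : B T (u + (0, 2)) * (B T u)⁻¹ = sg T l := by
  have hm : 2 < m := by
    have h1 := i.2
    have h2 := j.2
    have h3 := l.2
    have h4 : (i : ℕ) ≠ j := fun h => D.hij (Fin.ext h)
    have h5 : (i : ℕ) ≠ l := fun h => D.hil (Fin.ext h)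
    have h6 : (j : ℕ) ≠ l := fun h => D.hjl (Fin.ext h)
    omega
  obtain ⟨s1, s2, h1, h2⟩ := PC.exists_pair_orth [u.1, e l] (by simpa using hm)
  have ou := h2 u.1 (by simp)
  have oe := h2 (e l) (by simp)
  have hB : PC.AdjB s1 s2 := Or.inl h1
  have a1 : AdjA u.1 s1 := PC.Orth.adjA ⟨D.Om_prim hu, ou.1, ou.2, hB⟩
  have a2 : AdjA (e l) s1 := PC.Orth.adjA ⟨⟨f l, om_e_f l⟩, oe.1, oe.2, hB⟩
  obtain ⟨w, hw, pw⟩ : ∃ w : U m, w.1 = s1 ∧ Par w :=
    ⟨(s1, -co s1 s1), rfl, by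
      unfold Par
      change (2 : ℤ) ∣ -co s1 s1 + co s1 s1
      rw [neg_add_cancel]
      exact dvd_zero _⟩
  rw [← hw] at a1 a2
  have pe : Par ((e l, 0) : U m) := by
    unfold Par
    change (2 : ℤ) ∣ 0 + co (e l) (e l)
    rw [co_e_e]
    exact dvd_zero _
  have h3 : ((e l, 0) : U m) + (0, 2) = (e l, 2) := by
    apply Prod.ext
    · change e l + 0 = e l
      rw [add_zero]
    · rfl
  have h4 := D.sg_adj (u1 := (e l, 0)) (u2 := w) a2 pe pw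
  rw [h3] at h4
  rw [D.sg_adj a1 (D.Om_par hu) pw, ← h4, sg]

/-- It is central. -/
theorem sg_comm (g : M0) : Commute (q g) (sg T l) := by
  have h1 := D.q_B g D.two
  have h2 := D.q_B g (Om_base act l)
  have h3 : act g (e l, 2) = act g (e l, 0) + (0, 2) := by
    rw [← D.act_add]
    congr 1
    apply Prod.ext
    · change e l = e l + 0
      rw [add_zero]
    · rfl
  rw [h3] at h1
  have h4 : q g * sg T l * (q g)⁻¹ = (q g * B T (e l, 2) * (q g)⁻¹) *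
      (q g * B T (e l, 0) * (q g)⁻¹)⁻¹ := by rw [sg]; group
  have h5 : q g * sg T l * (q g)⁻¹ = sg T l := by
    rw [h4, h1, h2]
    exact D.sg_eq ⟨g, rfl⟩
  exact mul_inv_eq_iff_eq_mul.1 h5

lemma T_eq_q {u : U m} (hu : u ∈ Om act l) : ∃ g : M0, q g = T u := by
  obtain ⟨g, g1, -⟩ := D.tact u hu
  exact ⟨g, g1⟩

lemma sg_T {u : U m} (hu : u ∈ Om act l) : Commute (T u) (sg T l) := by
  obtain ⟨g, g1⟩ := D.T_eq_q hu
  rw [← g1]
  exact D.sg_comm g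

lemma sg_B {u : U m} (hu : u ∈ Om act l) : Commute (B T u) (sg T l) :=
  (D.sg_T (D.Om_two hu)).mul_left (D.sg_T hu).inv_left

/-- The shift of a bounding pair. -/
theorem B_shift {u : U m} (hu : u ∈ Om act l) (k : ℤ) :
    B T (u + (0, 2 * k)) = B T u * sg T l ^ k := by
  induction k using Int.induction_on with
  | zero => rw [mul_zero, sh_zero, zpow_zero, mul_one]
  | succ k ih =>
    have h1 := D.sg_eq (D.Om_add_even D.two hu (k : ℤ))
    rw [sh_sh, mul_inv_eq_iff_eq_mul, ih] at h1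
    have h3 : (2 * ((k : ℤ) + 1)) = 2 * (k : ℤ) + 2 := by ring
    rw [h3, h1, zpow_add_one, ← mul_assoc, ← mul_assoc, ← (D.sg_B hu).eq]
    have h4 : Commute (sg T l) (sg T l ^ (k : ℤ)) := Commute.self_zpow _ _
    rw [mul_assoc, h4.eq, ← mul_assoc]
  | pred k ih =>
    have h1 := D.sg_eq (D.Om_add_even D.two hu (-(k : ℤ) - 1))
    have h3 : 2 * (-(k : ℤ) - 1) + 2 = 2 * (-(k : ℤ)) := by ring
    rw [sh_sh, h3, mul_inv_eq_iff_eq_mul, ih] at h1
    have h4 : B T (u + (0, 2 * (-(k : ℤ) - 1))) = (sg T l)⁻¹ * (B T u * sg T l ^ (-(k : ℤ))) := by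
      rw [h1, inv_mul_cancel_left]
    rw [h4, zpow_sub_one, ← mul_assoc, ← mul_assoc, (D.sg_B hu).inv_right.eq.symm, mul_assoc,
      mul_assoc]
    congr 1
    exact ((Commute.refl (sg T l)).inv_left.zpow_right _).eq

/-- The commutator of two bounding pairs. -/
theorem B_conj {u u' : U m} (hu : u ∈ Om act l) (hu' : u' ∈ Om act l) :
    B T u * B T u' * (B T u)⁻¹ = B T u' * sg T l ^ om u.1 u'.1 := by
  rw [D.B_B' hu hu', D.B_shift hu']

/-- The bounding pair of a difference, `om u u' = 1`. -/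
theorem B_diff {u u' : U m} (hu : u ∈ Om act l) (hu' : u' ∈ Om act l) (h : om u.1 u'.1 = 1) :
    B T (u' - u + (0, 1)) = B T u' * (B T u)⁻¹ := by
  obtain ⟨g, g1, g2⟩ := D.tact u hu
  have h1 : act g⁻¹ u' = u' - u + (0, 1) := by
    have h3 := g2 (u' - u + (0, 1))
    have h4 : om u.1 (u' - u + (0, 1) : U m).1 = 1 := by
      change om u.1 (u'.1 - u.1 + 0) = 1
      rw [add_zero, om_sub_right, om_self, h, sub_zero]
    rw [h4, one_smul] at h3
    have h5 : u' - u + (0, 1) + (u - (0, 1)) = u' := by abel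
    rw [h5] at h3
    rw [← act_inv_apply (act := act) g (u' - u + (0, 1)), h3]
  have h2 := D.q_B g⁻¹ hu'
  rw [h1, map_inv, inv_inv, g1] at h2
  rw [← h2]
  have h3 := D.B_T hu' hu
  have h4 : om u'.1 u.1 = -1 := by rw [om_swap, h]
  have h5 : (2 * (-1 : ℤ)) = -2 := rfl
  rw [h4] at h3
  -- B u' * T u = T (u - 2) * B u'
  have h6 : B T u' * T u = T (u + (0, 2 * -1)) * B T u' := mul_inv_eq_iff_eq_mul.1 h3
  have h7 : B T (u + (0, 2 * -1)) = T u * (T (u + (0, 2 * -1)))⁻¹ := by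
    have h8 : u + (0, 2 * -1) + (0, 2) = u := by
      rw [sh_sh]
      exact sh_zero u
    rw [B, h8]
  have h9 := D.B_shift hu (-1)
  rw [h7] at h9
  have h10 : (T u)⁻¹ * T (u + (0, 2 * -1)) = (B T u * sg T l ^ (-1 : ℤ))⁻¹ := by
    have c := D.T_comm hu (D.Om_add_even D.two hu (-1)) (by
      change om u.1 (u.1 + 0) = 0
      rw [add_zero, om_self])
    rw [← h9, mul_inv_rev, inv_inv, inv_mul_eq_iff_eq_mul, ← mul_assoc, c, mul_assoc,
      mul_inv_cancel, mul_one]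
  rw [mul_assoc, h6, ← mul_assoc, h10, mul_inv_rev, zpow_neg_one, inv_inv]
  have h11 := D.B_conj hu' hu
  rw [h4] at h11
  -- B u' * B u * (B u')⁻¹ = B u * sg ^ (-1)
  have h12 : B T u' * (B T u)⁻¹ = (B T u * sg T l ^ (-1 : ℤ))⁻¹ * B T u' := by
    rw [← h11]; group
  rw [h12, mul_inv_rev, zpow_neg_one, inv_inv]

lemma three_le : 3 ≤ m := by
  have h1 := i.2
  have h2 := j.2
  have h3 := l.2
  have h4 : (i : ℕ) ≠ j := fun h => D.hij (Fin.ext h)
  have h5 : (i : ℕ) ≠ l := fun h => D.hil (Fin.ext h)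
  have h6 : (j : ℕ) ≠ l := fun h => D.hjl (Fin.ext h)
  omega

/-- A twist with shifted winding number. -/
theorem T_shift {u : U m} (hu : u ∈ Om act l) (k : ℕ) :
    T (u + (0, 2 * (k : ℤ))) = B T u ^ k * sg T l ^ (k * (k - 1) / 2) * T u := by
  induction k with
  | zero =>
    rw [Nat.cast_zero, mul_zero, sh_zero]
    simp
  | succ k ih =>
    have h1 := D.B_shift hu (k : ℤ)
    have h2 : T (u + (0, 2 * ((k + 1 : ℕ) : ℤ))) =
        B T (u + (0, 2 * (k : ℤ))) * T (u + (0, 2 * (k : ℤ))) := by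
      rw [B, sh_sh, inv_mul_cancel_right]
      have h3 : 2 * ((k + 1 : ℕ) : ℤ) = 2 * (k : ℤ) + 2 := by push_cast; ring
      rw [h3]
    have h3 : (k + 1) * (k + 1 - 1) / 2 = k + k * (k - 1) / 2 := by
      rcases Nat.even_or_odd' k with ⟨c, rfl | rfl⟩
      · have e1 : (2 * c + 1) * (2 * c + 1 - 1) = 2 * (c * (2 * c + 1)) := by
          rw [Nat.add_sub_cancel]; ring
        have e2 : 2 * c * (2 * c - 1) = 2 * (c * (2 * c - 1)) := by ring
        rw [e1, e2, Nat.mul_div_cancel_left _ (by norm_num),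
          Nat.mul_div_cancel_left _ (by norm_num)]
        rcases c with _ | c
        · simp
        · have e3 : 2 * (c + 1) - 1 = 2 * c + 1 := by omega
          rw [e3]; ring
      · have e1 : (2 * c + 1 + 1) * (2 * c + 1 + 1 - 1) = 2 * ((c + 1) * (2 * c + 1)) := by
          rw [Nat.add_sub_cancel]; ring
        have e2 : (2 * c + 1) * (2 * c + 1 - 1) = 2 * ((2 * c + 1) * c) := by
          rw [Nat.add_sub_cancel]; ring
        rw [e1, e2, Nat.mul_div_cancel_left _ (by norm_num),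
          Nat.mul_div_cancel_left _ (by norm_num)]
        ring
    rw [h2, h1, ih, h3, zpow_natCast, pow_succ', pow_add]
    have c1 : sg T l ^ k * (B T u ^ k * sg T l ^ (k * (k - 1) / 2) * T u) =
        B T u ^ k * (sg T l ^ k * sg T l ^ (k * (k - 1) / 2)) * T u := by
      rw [← mul_assoc, ← mul_assoc, ← ((D.sg_B hu).pow_pow k k).eq, ← mul_assoc]
    rw [mul_assoc (B T u) (sg T l ^ k), c1]
    simp only [mul_assoc]

lemma T_period {u : U m} (hu : u ∈ Om act l) : T (u + (0, 2 * ((m - 1 : ℕ) : ℤ))) = T u := by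
  obtain ⟨w, hw⟩ := D.Om_prim hu
  obtain ⟨g, g1, g2⟩ := D.inn (-w)
  have h1 := D.eqv g u hu
  have h3 := D.three_le
  rw [g1, g2, one_mul, inv_one, mul_one, om_neg_left, om_swap, hw, neg_neg, mul_one] at h1
  rw [h1]
  congr 2
  rw [Nat.cast_sub (by omega), Nat.cast_one]

lemma B_kappa {u : U m} (hu : u ∈ Om act l) :
    B T u ^ (m - 1) * sg T l ^ ((m - 1) * (m - 1 - 1) / 2) = 1 := by
  have h1 := D.T_shift hu (m - 1)
  rw [D.T_period hu] at h1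
  exact mul_eq_right.1 h1.symm

/-- The order of the central element divides `m - 1`. -/
theorem sg_pow : sg T l ^ (m - 1) = 1 := by
  have h1 := D.B_kappa (Om_base act l)
  have h2 := D.B_kappa (D.Om_two (Om_base act l))
  have h3 := D.B_shift (Om_base act l) 1
  rw [mul_one, zpow_one] at h3
  rw [h3, (D.sg_B (Om_base act l)).mul_pow, mul_assoc,
    ((Commute.refl (sg T l)).pow_pow _ _).eq, ← mul_assoc, h1, one_mul] at h2
  exact h2

/-- The order of the central element divides `(m - 1) (m - 2) / 2`. -/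
theorem sg_pow' : sg T l ^ ((m - 1) * (m - 1 - 1) / 2) = 1 := by
  have hA : AdjA ((e l, 0) : U m).1 ((e i, 0) : U m).1 :=
    ⟨om_e_e _ _, ⟨f l, om_e_f l, om_e_f_ne D.hil⟩, f i, om_e_f_ne D.hil.symm, om_e_f i⟩
  have pe : ∀ k : Fin m, Par ((e k, 0) : U m) := by
    intro k
    unfold Par
    change (2 : ℤ) ∣ 0 + co (e k) (e k)
    rw [co_e_e]
    exact dvd_zero _
  have h0 := D.B_add hA (pe l) (pe i)
  obtain ⟨m1, m2⟩ := D.Om_adj hA (pe l) (pe i)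
  have m3 : ((e l, 0) : U m) + (e i, 0) ∈ Om act l := by
    refine D.Om_of D.two ⟨f l, ?_⟩ ((pe l).add (pe i) (om_e_e l i))
    rw [om_add_left, om_e_f, om_e_f_ne D.hil, add_zero]
  have k1 := eq_inv_of_mul_eq_one_left (D.B_kappa m1)
  have k2 := eq_inv_of_mul_eq_one_left (D.B_kappa m2)
  have k3 := eq_inv_of_mul_eq_one_left (D.B_kappa m3)
  have hc : Commute (B T ((e l, 0) : U m)) (B T ((e i, 0) : U m)) :=
    D.B_B_comm hA (pe l) (pe i)
  rw [h0, hc.mul_pow, k1, k2] at k3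
  have h4 := mul_eq_left.1 k3
  rwa [inv_eq_one] at h4

theorem B_pow {u : U m} (hu : u ∈ Om act l) : B T u ^ (m - 1) = 1 := by
  have h1 := D.B_kappa hu
  rwa [D.sg_pow', mul_one] at h1

end Loc

end Pool.Agent.H.MP_59b15d_al.H73X
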