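/-
Framed classes: the winding coordinate and the linear action of the mapping class group.
-/
import Pool.Agent.H.MP_59b15d_al.h73x.Loc
import Pool.Agent.H.MP_59b15d_al.h93c.TL
import Pool.Agent.H.MP_59b15d_al.pk.ThmG

set_option autoImplicit false

namespace Pool.Agent.H.MP_59b15d_al.H73X

open Pool.Agent.H.MP_59b15d_al.SP
open Pool.Agent.H.MP_59b15d_al.H93C
open Pool.MP_59b15d_al.H24T Pool.MP_59b15d_al.H76R Pool.MP_59b15d_al.H73E
open Pool.MP_59b15d_al.H60G
open FreeGroup (of)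

section wd

variable {m : ℕ}

/-- The winding coordinate. -/
def wd (x : Hs m) : ℤ := 2 * x.s + co x.v x.v

lemma wd_mul (x y : Hs m) : wd (x * y) = wd x + wd y + om x.v y.v := by
  simp only [wd, Hs.mul_s, Hs.mul_v, om_eq_co, co_add_left, co_add_right]
  ring

lemma wd_one : wd (1 : Hs m) = 0 := by
  simp [wd, Hs.one_s, Hs.one_v, co_zero_left]

lemma wd_inv (x : Hs m) : wd x⁻¹ = -wd x := by
  have h1 := wd_mul x x⁻¹
  rw [mul_inv_cancel, wd_one, Hs.inv_v, om_neg_right, om_self, neg_zero, add_zero] at h1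
  omega

lemma wd_z (k : ℤ) : wd (Hs.z ^ k : Hs m) = 2 * k := by
  rw [Hs.z_zpow, wd, co_zero_left, add_zero]

lemma wd_mul_z (x : Hs m) (k : ℤ) : wd (x * Hs.z ^ k) = wd x + 2 * k := by
  rw [wd_mul, wd_z, Hs.z_zpow, om_zero_right, add_zero]

/-- The winding coordinate of an element of the free group. -/
def WD (x : Fr m) : ℤ := wd (hs x)

lemma WD_mul (x y : Fr m) : WD (x * y) = WD x + WD y + om (clr x) (clr y) := by
  rw [WD, map_mul, wd_mul]
  rfl

lemma WD_one : WD (1 : Fr m) = 0 := by rw [WD, map_one, wd_one]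

lemma WD_inv (x : Fr m) : WD x⁻¹ = -WD x := by rw [WD, map_inv, wd_inv]; rfl

lemma WD_a (i : Fin m) : WD (of (Sum.inl i) : Fr m) = 0 := by
  rw [WD, hs_a, wd]
  simp only [co]
  rw [mul_zero, zero_add]
  refine Finset.sum_eq_zero fun k _ => ?_
  by_cases hk : k = i
  · subst hk; simp [e]
  · simp [e, hk]

lemma WD_b (i : Fin m) : WD (of (Sum.inr i) : Fr m) = 0 := by
  rw [WD, hs_b, wd]
  simp only [co]
  rw [mul_zero, zero_add]
  refine Finset.sum_eq_zero fun k _ => ?_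
  by_cases hk : k = i
  · subst hk; simp [f]
  · simp [f, hk]

lemma WD_conj (x y : Fr m) : WD (x * y * x⁻¹) = WD y + 2 * om (clr x) (clr y) := by
  rw [WD_mul, WD_mul, WD_inv, clr_mul, clr_inv, om_neg_right, om_add_left, om_self,
    om_swap (clr y) (clr x)]
  ring

lemma par_WD (x : Fr m) : (2 : ℤ) ∣ WD x + co (clr x) (clr x) := by
  rw [WD, wd]
  exact ⟨(hs x).s + co (clr x) (clr x), by rw [clr]; ring⟩

/-- The change of the winding coordinate by a lift. -/
def LF (F : MulAut (Fr m)) : V m →ₗ[ℤ] ℤ where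
  toFun v := ∑ i, ((v i).1 * WD (F (of (Sum.inl i))) + (v i).2 * WD (F (of (Sum.inr i))))
  map_add' v w := by
    rw [← Finset.sum_add_distrib]
    refine Finset.sum_congr rfl fun i _ => ?_
    simp only [Pi.add_apply, Prod.fst_add, Prod.snd_add]
    ring
  map_smul' c v := by
    rw [RingHom.id_apply, smul_eq_mul, Finset.mul_sum]
    refine Finset.sum_congr rfl fun i _ => ?_
    simp only [Pi.smul_apply, Prod.smul_fst, Prod.smul_snd, smul_eq_mul]
    ring

lemma LF_e (F : MulAut (Fr m)) (i : Fin m) : LF F (e i) = WD (F (of (Sum.inl i))) := by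
  change ∑ k : Fin m, ((e i k).1 * WD (F (of (Sum.inl k))) + (e i k).2 *
    WD (F (of (Sum.inr k)))) = _
  rw [Finset.sum_eq_single i]
  · simp [e]
  · intro k _ hk; simp [e, hk]
  · intro h; exact absurd (Finset.mem_univ i) h

lemma LF_f (F : MulAut (Fr m)) (i : Fin m) : LF F (f i) = WD (F (of (Sum.inr i))) := by
  change ∑ k : Fin m, ((f i k).1 * WD (F (of (Sum.inl k))) + (f i k).2 *
    WD (F (of (Sum.inr k)))) = _
  rw [Finset.sum_eq_single i]
  · simp [f]
  · intro k _ hk; simp [f, hk]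
  · intro h; exact absurd (Finset.mem_univ i) h

theorem WD_F {F : MulAut (Fr m)} (hF : F ∈ Sym m) (x : Fr m) :
    WD (F x) = WD x + LF F (clr x) := by
  induction x using fr_induction with
  | h1 => rw [map_one, WD_one, clr_one, map_zero, add_zero]
  | ha i => rw [WD_a, clr_a, LF_e, zero_add]
  | hb i => rw [WD_b, clr_b, LF_f, zero_add]
  | hm x y hx hy => rw [map_mul, WD_mul, hx, hy, WD_mul, clr_mul, map_add, hF]; ring
  | hi x hx => rw [map_inv, WD_inv, hx, WD_inv, clr_inv, map_neg]; ring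

end wd

section act

variable {n : ℕ} {G : Type*} [Group G] {a b : Fin (n + 1) → G}

/-- A lift. -/
noncomputable def lft (h : IsSurf a b) (φ : MMs h) : MulAut (Fr (n + 1)) :=
  (exists_Lf h φ.2).choose

theorem lft_spec (h : IsSurf a b) (φ : MMs h) : Lf a b φ.1 (lft h φ) :=
  (exists_Lf h φ.2).choose_spec

theorem hs_lift_eq (h : IsSurf a b) (hn : 1 ≤ n) {φ : MulAut G} {F K : MulAut (Fr (n + 1))}
    (hF : Lf a b φ F) (hK : Lf a b φ K) (x : Fr (n + 1)) : hs (F x) = hs (K x) := by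
  have h1 : Lf a b 1 (K⁻¹ * F) := by
    have := hK.inv.mul hF
    rwa [inv_mul_cancel] at this
  have h2 := Lf_one_hs h hn h1 x
  have h3 := Sym.hs_eq (FT_sym hK.mem) h2
  rw [MulAut.mul_apply, MulAut.apply_inv_self] at h3
  exact h3

theorem LF_eq (h : IsSurf a b) (hn : 1 ≤ n) {φ : MMs h} {F : MulAut (Fr (n + 1))}
    (hF : Lf a b φ.1 F) : LF F = LF (lft h φ) := by
  apply V_hom_ext
  · intro i
    rw [LF_e, LF_e, WD, WD, hs_lift_eq h hn hF (lft_spec h φ)]
  · intro i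
    rw [LF_f, LF_f, WD, WD, hs_lift_eq h hn hF (lft_spec h φ)]

theorem LF_mul (h : IsSurf a b) (hn : 1 ≤ n) (φ ψ : MMs h) (v : V (n + 1)) :
    LF (lft h (φ * ψ)) v = LF (lft h ψ) v + LF (lft h φ) (H1 h ψ.1 v) := by
  have h1 : Lf a b (φ * ψ).1 (lft h φ * lft h ψ) := (lft_spec h φ).mul (lft_spec h ψ)
  rw [← LF_eq h hn h1]
  have h2 : ∀ x : Fr (n + 1), LF (lft h φ * lft h ψ) (clr x) =
      LF (lft h ψ) (clr x) + LF (lft h φ) (H1 h ψ.1 (clr x)) := by
    intro x
    have h3 := WD_F (FT_sym h1.mem) x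
    rw [MulAut.mul_apply, WD_F (FT_sym (lft_spec h φ).mem), WD_F (FT_sym (lft_spec h ψ).mem),
      (lft_spec h ψ).clr_eq h] at h3
    omega
  obtain ⟨x, rfl⟩ := PK.clr_surj v
  exact h2 x

theorem LF_one (h : IsSurf a b) (hn : 1 ≤ n) : LF (lft h 1) = 0 := by
  rw [← LF_eq h hn (φ := 1) (Lf.one a b)]
  apply V_hom_ext
  · intro i
    rw [LF_e, MulAut.one_apply, WD_a, LinearMap.zero_apply]
  · intro i
    rw [LF_f, MulAut.one_apply, WD_b, LinearMap.zero_apply]

/-- The action on framed classes. -/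
noncomputable def actL (h : IsSurf a b) (φ : MMs h) : Module.End ℤ (U (n + 1)) :=
  LinearMap.prod ((H1 h φ.1).toLinearMap.comp (LinearMap.fst ℤ _ _))
    (LinearMap.snd ℤ _ _ + (LF (lft h φ)).comp (LinearMap.fst ℤ _ _))

theorem actL_apply (h : IsSurf a b) (φ : MMs h) (x : U (n + 1)) :
    actL h φ x = (H1 h φ.1 x.1, x.2 + LF (lft h φ) x.1) := rfl

/-- The action as a homomorphism. -/
noncomputable def actH (h : IsSurf a b) (hn : 1 ≤ n) : MMs h →* Module.End ℤ (U (n + 1)) where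
  toFun := actL h
  map_one' := by
    refine LinearMap.ext fun x => ?_
    rw [actL_apply, LF_one h hn]
    refine Prod.ext ?_ ?_
    · change H1 h (1 : MulAut G) x.1 = x.1
      rw [map_one]
      rfl
    · change x.2 + 0 = x.2
      ring
  map_mul' φ ψ := by
    refine LinearMap.ext fun x => ?_
    rw [Module.End.mul_apply, actL_apply, actL_apply, actL_apply, LF_mul h hn]
    refine Prod.ext ?_ ?_
    · change H1 h (φ.1 * ψ.1) x.1 = H1 h φ.1 (H1 h ψ.1 x.1)
      rw [map_mul]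
      rfl
    · change x.2 + (_ + _) = x.2 + _ + _
      ring

/-- The action of the mapping class group on the framed classes. -/
noncomputable def act (h : IsSurf a b) (hn : 1 ≤ n) : MMs h →* (U (n + 1) ≃ₗ[ℤ] U (n + 1)) :=
  (LinearMap.GeneralLinearGroup.generalLinearEquiv ℤ (U (n + 1))).toMonoidHom.comp
    (actH h hn).toHomUnits

theorem act_apply (h : IsSurf a b) (hn : 1 ≤ n) (φ : MMs h) (x : U (n + 1)) :
    act h hn φ x = (H1 h φ.1 x.1, x.2 + LF (lft h φ) x.1) := rfl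

/-- The action through any lift. -/
theorem act_lift (h : IsSurf a b) (hn : 1 ≤ n) (φ : MMs h) {F : MulAut (Fr (n + 1))}
    (hF : Lf a b φ.1 F) (x : Fr (n + 1)) :
    act h hn φ (clr x, WD x) = (clr (F x), WD (F x)) := by
  rw [act_apply, ← LF_eq h hn hF, ← WD_F (FT_sym hF.mem), ← hF.clr_eq h]

theorem act_lift' (h : IsSurf a b) (hn : 1 ≤ n) (φ : MMs h) {F : MulAut (Fr (n + 1))}
    (hF : Lf a b φ.1 F) (v : V (n + 1)) (w : ℤ) :
    act h hn φ (v, w) = (H1 h φ.1 v, w + LF F v) := by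
  rw [act_apply, ← LF_eq h hn hF]

theorem act_fix (h : IsSurf a b) (hn : 1 ≤ n) (φ : MMs h) (w : ℤ) :
    act h hn φ (0, w) = (0, w) := by
  rw [act_apply]
  exact Prod.ext (map_zero _) (by change w + LF (lft h φ) 0 = w; rw [map_zero, add_zero])

theorem act_sp (h : IsSurf a b) (hn : 1 ≤ n) (φ : MMs h) (x y : U (n + 1)) :
    om (act h hn φ x).1 (act h hn φ y).1 = om x.1 y.1 := by
  rw [act_apply, act_apply]
  exact H1_om h φ.2 _ _

theorem act_par (h : IsSurf a b) (hn : 1 ≤ n) (φ : MMs h) (x : U (n + 1)) : (2 : ℤ) ∣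
    ((act h hn φ x).2 + co (act h hn φ x).1 (act h hn φ x).1) - (x.2 + co x.1 x.1) := by
  obtain ⟨v, w⟩ := x
  obtain ⟨y, rfl⟩ := PK.clr_surj v
  rw [act_lift' h hn φ (lft_spec h φ), ← (lft_spec h φ).clr_eq h]
  have h1 := par_WD (lft h φ y)
  have h2 := par_WD y
  have h3 := WD_F (FT_sym (lft_spec h φ).mem) y
  change (2 : ℤ) ∣ (w + LF (lft h φ) (clr y) + co (clr (lft h φ y)) (clr (lft h φ y))) -
    (w + co (clr y) (clr y))
  have h4 : (w + LF (lft h φ) (clr y) + co (clr (lft h φ y)) (clr (lft h φ y))) -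
    (w + co (clr y) (clr y)) = (WD (lft h φ y) + co (clr (lft h φ y)) (clr (lft h φ y))) -
      (WD y + co (clr y) (clr y)) := by rw [h3]; ring
  rw [h4]
  exact dvd_sub h1 h2

theorem act_surj (h : IsSurf a b) (hn : 1 ≤ n) (A : Sp (n + 1)) :
    ∃ g : MMs h, ∀ x : U (n + 1), (act h hn g x).1 = (A : V (n + 1) ≃ₗ[ℤ] V (n + 1)) x.1 := by
  obtain ⟨c, hc⟩ := PK.lift_all h A
  refine ⟨c, fun x => ?_⟩
  rw [act_apply, ← hc, PK.phG_val]

/-- The Torelli elements act by their shift. -/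
theorem act_TL (h : IsSurf a b) (hn : 1 ≤ n) (φ : MMs h) {u : V (n + 1)} (hu : TL a b φ.1 u)
    (x : U (n + 1)) : act h hn φ x = x + (0, 2 * om u x.1) := by
  obtain ⟨v, w⟩ := x
  obtain ⟨y, rfl⟩ := PK.clr_surj v
  have h1 := hu.H1_eq h
  obtain ⟨F, hF, h2⟩ := hu
  have h3 := WD_F (FT_sym hF.mem) y
  rw [WD, h2, wd_mul_z] at h3
  rw [act_lift' h hn φ hF, h1]
  refine Prod.ext ?_ ?_
  · change clr y = clr y + 0
    rw [add_zero]
  · change w + LF F (clr y) = w + 2 * om u (clr y)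
    have h4 : WD y = wd (hs y) := rfl
    omega

end act

end Pool.Agent.H.MP_59b15d_al.H73X
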