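/-
The images of the twists depend only on the framed class of the curve.
-/
import Pool.Agent.H.MP_59b15d_al.h73x.Wd
import Pool.Agent.H.MP_59b15d_al.h93c.BPx

set_option autoImplicit false

namespace Pool.Agent.H.MP_59b15d_al.H73X

open Pool.Agent.H.MP_59b15d_al.SP
open Pool.Agent.H.MP_59b15d_al.H93C
open Pool.MP_59b15d_al.H24T Pool.MP_59b15d_al.H76R Pool.MP_59b15d_al.H73E
open Pool.MP_59b15d_al.H60G
open FreeGroup (of)

section LFs

variable {m : ℕ}

lemma LF_FA (i : Fin m) : LF (FA i) = -omR (e i) := by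
  apply V_hom_ext
  · intro k
    rw [LF_e, FA_ne i (by simp), WD_a, LinearMap.neg_apply, H93C.omL_apply, om_e_e, neg_zero]
  · intro k
    rw [LF_f, LinearMap.neg_apply, H93C.omL_apply]
    by_cases hk : k = i
    · subst hk
      rw [FA_self, WD_mul, WD_a, WD_b, clr_a, clr_b, om_f_e, om_e_f]
      ring
    · rw [FA_ne i (by simp [hk]), WD_b, om_e_f_ne (fun h => hk h.symm), neg_zero]

lemma LF_FB (i : Fin m) : LF (FB i) = -omR (f i) := by
  apply V_hom_ext
  · intro k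
    rw [LF_e, LinearMap.neg_apply, H93C.omL_apply]
    by_cases hk : k = i
    · subst hk
      rw [FB_self, WD_mul, WD_a, WD_b, clr_a, clr_b, om_f_e, om_e_f]
      ring
    · rw [FB_ne i (by simp [hk]), WD_a, om_f_e_ne (fun h => hk h.symm), neg_zero]
  · intro k
    rw [LF_f, FB_ne i (by simp), WD_b, LinearMap.neg_apply, H93C.omL_apply, om_f_f, neg_zero]

lemma LF_FC (i j : Fin m) (hij : i ≠ j) : LF (FC i j hij) = -omR (f i - e j) := by
  have hc : WD ((of (Sum.inl j))⁻¹ * of (Sum.inr i) : Fr m) = 0 := by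
    rw [WD_mul, WD_inv, WD_a, WD_b, clr_inv, clr_a, clr_b, om_neg_left, om_e_f_ne hij.symm]
    ring
  have hcl : clr ((of (Sum.inl j))⁻¹ * of (Sum.inr i) : Fr m) = -e j + f i := by
    rw [clr_mul, clr_inv, clr_a, clr_b]
  have hcj : ∀ c x : Fr m, WD (c⁻¹ * x * c) = WD x + 2 * om (-clr c) (clr x) := by
    intro c x
    have := WD_conj c⁻¹ x
    rw [inv_inv, clr_inv] at this
    exact this
  apply V_hom_ext
  · intro k
    rw [LF_e, LinearMap.neg_apply, H93C.omL_apply, om_sub_left, om_e_e]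
    by_cases hk : k = i
    · subst hk
      rw [FC_ai, WD_mul, hc, WD_a, clr_a, hcl, om_add_right, om_neg_right, om_e_e, om_e_f, om_f_e]
      ring
    · by_cases hk2 : k = j
      · subst hk2
        rw [FC_aj, hcj, WD_a, hcl, clr_a, om_neg_left, om_add_left, om_neg_left, om_e_e,
          om_f_e_ne hij]
        ring
      · rw [FC_a_ne i j hij hk hk2, WD_a, om_f_e_ne (fun h => hk h.symm)]
        ring
  · intro k
    rw [LF_f, LinearMap.neg_apply, H93C.omL_apply, om_sub_left, om_f_f]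
    by_cases hk : k = i
    · subst hk
      rw [FC_bi]
      have h1 : ((of (Sum.inl j))⁻¹ * of (Sum.inr k) : Fr m)⁻¹ * of (Sum.inl j) *
          ((of (Sum.inl j))⁻¹ * of (Sum.inr k)) * ((of (Sum.inl j))⁻¹ * of (Sum.inr k)) =
          ((of (Sum.inl j))⁻¹ * of (Sum.inr k) : Fr m)⁻¹ * of (Sum.inr k) *
          ((of (Sum.inl j))⁻¹ * of (Sum.inr k)) := by group
      rw [h1, hcj, WD_b, hcl, clr_b, om_neg_left, om_add_left, om_neg_left, om_e_f_ne hij.symm,
        om_f_f]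
      ring
    · by_cases hk2 : k = j
      · subst hk2
        rw [FC_bj, WD_mul, hc, WD_b, clr_b, hcl, om_add_right, om_neg_right, om_f_f, om_f_e,
          om_e_f]
        ring
      · rw [FC_b_ne i j hij hk hk2, WD_b, om_e_f_ne (fun h => hk2 h.symm)]
        ring

end LFs

section tw

variable {n : ℕ} {G : Type*} [Group G] {a b : Fin (n + 1) → G}

/-- The twists as elements of the mapping class group. -/
noncomputable def tA (h : IsSurf a b) (i : Fin (n + 1)) : MMs h :=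
  ⟨TA h i, Subgroup.subset_closure (Or.inr (Or.inl ⟨_, rfl⟩))⟩
noncomputable def tB (h : IsSurf a b) (i : Fin (n + 1)) : MMs h :=
  ⟨TB h i, Subgroup.subset_closure (Or.inr (Or.inr (Or.inl ⟨_, rfl⟩)))⟩
noncomputable def tC (h : IsSurf a b) {i j : Fin (n + 1)} (hij : (j : ℕ) = i + 1) : MMs h :=
  ⟨TC h i j hij, Subgroup.subset_closure (Or.inr (Or.inr (Or.inr ⟨_, _, _, rfl⟩)))⟩

theorem act_tA (h : IsSurf a b) (hn : 1 ≤ n) (i : Fin (n + 1)) (x : U (n + 1)) :
    act h hn (tA h i) x = x + om (e i) x.1 • ((e i, 0) - (0, 1) : U (n + 1)) := by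
  obtain ⟨v, w⟩ := x
  rw [act_lift' h hn (tA h i) (Lf_TA h i), LF_FA]
  refine Prod.ext ?_ ?_
  · change H1 h (TA h i) v = v + om (e i) v • (e i - 0)
    rw [H1_A h ((isA_iff h i _).2 rfl), T_apply, om_swap v (e i), sub_zero]
    module
  · change w + -om (e i) v = w + om (e i) v * (0 - 1)
    ring

theorem act_tB (h : IsSurf a b) (hn : 1 ≤ n) (i : Fin (n + 1)) (x : U (n + 1)) :
    act h hn (tB h i) x = x - om (f i) x.1 • ((f i, 2) - (0, 1) : U (n + 1)) := by
  obtain ⟨v, w⟩ := x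
  rw [act_lift' h hn (tB h i) (Lf_TB h i), LF_FB]
  refine Prod.ext ?_ ?_
  · change H1 h (TB h i) v = v - om (f i) v • (f i - 0)
    rw [H1_B h ((isB_iff h i _).2 rfl), T_apply, om_swap v (f i), sub_zero]
    module
  · change w + -om (f i) v = w - om (f i) v * (2 - 1)
    ring

theorem act_tC (h : IsSurf a b) (hn : 1 ≤ n) {i j : Fin (n + 1)} (hij : (j : ℕ) = i + 1)
    (x : U (n + 1)) : act h hn (tC h hij) x =
      x - om (f i - e j) x.1 • ((f i - e j, 2) - (0, 1) : U (n + 1)) := by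
  obtain ⟨v, w⟩ := x
  rw [act_lift' h hn (tC h hij) (Lf_TC h hij), LF_FC]
  refine Prod.ext ?_ ?_
  · change H1 h (TC h i j hij) v = v - om (f i - e j) v • (f i - e j - 0)
    rw [H1_C h (ne_of_hij hij) ((isC_iff h i j hij _).2 rfl), T_apply, om_swap v (f i - e j),
      sub_zero]
    module
  · change w + -om (f i - e j) v = w - om (f i - e j) v * (2 - 1)
    ring

theorem act_tA_fix (h : IsSurf a b) (hn : 1 ≤ n) (i : Fin (n + 1)) {x : U (n + 1)}
    (hx : om (e i) x.1 = 0) : act h hn (tA h i) x = x := by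
  rw [act_tA, hx, zero_smul, add_zero]

theorem act_tB_fix (h : IsSurf a b) (hn : 1 ≤ n) (i : Fin (n + 1)) {x : U (n + 1)}
    (hx : om (f i) x.1 = 0) : act h hn (tB h i) x = x := by
  rw [act_tB, hx, zero_smul, sub_zero]

theorem act_tC_fix (h : IsSurf a b) (hn : 1 ≤ n) {i j : Fin (n + 1)} (hij : (j : ℕ) = i + 1)
    {x : U (n + 1)} (hx : om (f i - e j) x.1 = 0) : act h hn (tC h hij) x = x := by
  rw [act_tC, hx, zero_smul, sub_zero]

theorem act_inv_fix (h : IsSurf a b) (hn : 1 ≤ n) {φ : MMs h} {x : U (n + 1)}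
    (hx : act h hn φ x = x) : act h hn φ⁻¹ x = x := by
  have h1 : act h hn (φ⁻¹ * φ) x = x := by rw [inv_mul_cancel, map_one]; rfl
  rw [map_mul] at h1
  change act h hn φ⁻¹ (act h hn φ x) = x at h1
  rwa [hx] at h1

/-- The stabiliser of the last curve fixes its framed class. -/
theorem Mcs_act (h : IsSurf a b) (hn : 1 ≤ n) {φ : MMs h} (hφ : φ.1 ∈ PK.Mcs h) :
    act h hn φ (e (Fin.last n), 0) = (e (Fin.last n), 0) := by
  have key : ∀ (x : MulAut G) (_ : x ∈ PK.Mcs h) (hx : x ∈ MMs h),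
      act h hn ⟨x, hx⟩ (e (Fin.last n), 0) = (e (Fin.last n), 0) := by
    intro x hx
    refine Subgroup.closure_induction (p := fun x _ => ∀ hx : x ∈ MMs h,
      act h hn ⟨x, hx⟩ (e (Fin.last n), 0) = (e (Fin.last n), 0)) ?_ ?_ ?_ ?_ hx
    · rintro T (⟨i, rfl⟩ | ⟨i, rfl⟩ | ⟨i, j, hij, rfl⟩) hx
      · exact act_tA_fix h hn i (om_e_e _ _)
      · exact act_tB_fix h hn i.castSucc (om_f_e_ne (Fin.castSucc_lt_last i).ne)
      · refine act_tC_fix h hn hij ?_
        have hi : i ≠ Fin.last n := by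
          intro h1
          have h2 := j.2
          rw [hij, h1, Fin.val_last] at h2
          omega
        rw [om_sub_left, om_e_e, om_f_e_ne hi, sub_zero]
    · intro hx
      have h1 : (⟨1, hx⟩ : MMs h) = 1 := rfl
      rw [h1, map_one]
      rfl
    · intro s t hs' ht' hs ht hst
      have h1 : s ∈ MMs h := PK.Mcs_MMs h hs'
      have h2 : t ∈ MMs h := PK.Mcs_MMs h ht'
      have h3 : (⟨s * t, hst⟩ : MMs h) = ⟨s, h1⟩ * ⟨t, h2⟩ := rfl
      rw [h3, map_mul]
      change act h hn ⟨s, h1⟩ (act h hn ⟨t, h2⟩ _) = _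
      rw [ht h2, hs h1]
    · intro s hs' hs hst
      have h1 : s ∈ MMs h := PK.Mcs_MMs h hs'
      have h3 : (⟨s⁻¹, hst⟩ : MMs h) = (⟨s, h1⟩ : MMs h)⁻¹ := rfl
      rw [h3]
      exact act_inv_fix h hn (hs h1)
  exact key φ.1 hφ φ.2

/-- The stabiliser of the last curve commutes with its twist. -/
theorem Mcs_comm (h : IsSurf a b) {φ : MulAut G} (hφ : φ ∈ PK.Mcs h) : Commute φ (TT h) := by
  obtain ⟨y, k, f, hf, rfl⟩ := PK.Mcs_form h hφ
  obtain ⟨f', hp⟩ := pair_of_MR h le_rfl f hf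
  exact (((TT_XX h y).symm).mul_left ((Commute.refl (TT h)).zpow_left k)).mul_left
    (comm_TT h hp.fj hp.fa hp.fb)

/-- Every vector orthogonal to the last curve is the shift of an element of its stabiliser. -/
theorem exists_Mcs_TL (h : IsSurf a b) (hn : 2 ≤ n) (u : V (n + 1))
    (hu : om u (e (Fin.last n)) = 0) : ∃ φ ∈ PK.Mcs h, TL a b φ u := by
  have hMR : ∀ (lo hi : ℕ), hi ≤ n → MR h lo hi ≤ PK.Mcs h := by
    intro lo hi hhi
    refine MR_le h (fun i _ h2 => ?_) (fun i _ h2 => ?_) (fun i j hij _ h2 => ?_)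
    · exact Subgroup.subset_closure (Or.inl ⟨_, rfl⟩)
    · exact Subgroup.subset_closure (Or.inr (Or.inl ⟨⟨i, by omega⟩, rfl⟩))
    · exact Subgroup.subset_closure (Or.inr (Or.inr ⟨_, _, _, rfl⟩))
  let S : AddSubgroup (V (n + 1)) :=
    { carrier := {u | ∃ φ ∈ PK.Mcs h, TL a b φ u}
      add_mem' := by
        rintro x y ⟨φ, h1, h2⟩ ⟨ψ, h3, h4⟩
        exact ⟨φ * ψ, mul_mem h1 h3, h2.mul h4⟩
      zero_mem' := ⟨1, one_mem _, TL.one a b⟩
      neg_mem' := by
        rintro x ⟨φ, h1, h2⟩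
        exact ⟨φ⁻¹, inv_mem h1, h2.inv⟩ }
  have hblock : ∀ i : Fin n, (e i.castSucc : V (n + 1)) ∈ S ∧ (f i.castSucc : V (n + 1)) ∈ S := by
    intro i
    by_cases hi : (i : ℕ) + 1 < n
    · have hij : (((⟨i + 1, by omega⟩ : Fin (n + 1)) : ℕ)) = (i.castSucc : ℕ) + 1 := rfl
      obtain ⟨φ, h1, h2⟩ := exists_bp h hij (e i.castSucc) (Or.inl rfl)
      obtain ⟨ψ, h3, h4⟩ := exists_bp h hij (f i.castSucc) (Or.inr (Or.inl rfl))
      exact ⟨⟨φ, hMR _ _ (by simp only; omega) h1, h2⟩, ⟨ψ, hMR _ _ (by simp only; omega) h3, h4⟩⟩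
    · have hi2 := i.2
      have hij : ((i.castSucc : Fin (n + 1)) : ℕ) =
          ((⟨i - 1, by omega⟩ : Fin (n + 1)) : ℕ) + 1 := by
        simp only [Fin.val_castSucc]
        omega
      obtain ⟨φ, h1, h2⟩ := exists_bp h hij (e i.castSucc) (Or.inr (Or.inr (Or.inl rfl)))
      obtain ⟨ψ, h3, h4⟩ := exists_bp h hij (f i.castSucc) (Or.inr (Or.inr (Or.inr rfl)))
      exact ⟨⟨φ, hMR _ _ (by simp only [Fin.val_castSucc]; omega) h1, h2⟩,
        ⟨ψ, hMR _ _ (by simp only [Fin.val_castSucc]; omega) h3, h4⟩⟩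
  have hlast : (e (Fin.last n) : V (n + 1)) ∈ S := by
    have hij0 : ∃ i0 : Fin n, ((Fin.last n : Fin (n + 1)) : ℕ) = (i0.castSucc : ℕ) + 1 :=
      ⟨⟨n - 1, by omega⟩, by simp only [Fin.val_last, Fin.val_castSucc]; omega⟩
    obtain ⟨i0, hij⟩ := hij0
    have h1 : (-e (Fin.last n) : V (n + 1)) ∈ S := by
      refine ⟨(TB h i0.castSucc * (TA h i0.castSucc)⁻¹ * TC h i0.castSucc (Fin.last n) hij) ^ 4 *
        TA h (Fin.last n) ^ 2, ?_, BPa i0.castSucc (Fin.last n) (ne_of_hij hij), ?_,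
        hs_BPa i0.castSucc (Fin.last n) (ne_of_hij hij)⟩
      · have mB : TB h i0.castSucc ∈ PK.Mcs h :=
          Subgroup.subset_closure (Or.inr (Or.inl ⟨i0, rfl⟩))
        have mA : ∀ k, TA h k ∈ PK.Mcs h := fun k => Subgroup.subset_closure (Or.inl ⟨_, rfl⟩)
        have mC : TC h i0.castSucc (Fin.last n) hij ∈ PK.Mcs h :=
          Subgroup.subset_closure (Or.inr (Or.inr ⟨_, _, _, rfl⟩))
        exact mul_mem (pow_mem (mul_mem (mul_mem mB (inv_mem (mA _))) mC) 4) (pow_mem (mA _) 2)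
      · exact ((((Lf_TB h _).mul (Lf_TA h _).inv).mul (Lf_TC h hij)).pow 4).mul ((Lf_TA h _).pow 2)
    have := S.neg_mem h1
    rwa [neg_neg] at this
  have h0 : (u (Fin.last n)).2 = 0 := by
    rw [om_e] at hu
    omega
  have h1 : u ∈ S := by
    rw [expand u, Fin.sum_univ_castSucc]
    refine S.add_mem (S.sum_mem fun i _ => ?_) ?_
    · exact S.add_mem (S.zsmul_mem (hblock i).1 _) (S.zsmul_mem (hblock i).2 _)
    · rw [h0, zero_smul, add_zero]
      exact S.zsmul_mem hlast _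
  exact h1

variable {Q : Type*} [Group Q]

/-- The hypothesis: elements with trivial shift are central. -/
def Cz (h : IsSurf a b) (q : MMs h →* Q) : Prop :=
  ∀ φ : MMs h, TL a b φ.1 0 → ∀ ψ : MMs h, Commute (q φ) (q ψ)

/-- An element fixing the framed class of the last curve commutes with its twist. -/
theorem comm_of_fix (h : IsSurf a b) (hn : 2 ≤ n) (q : MMs h →* Q) (hq : Cz h q) (χ : MMs h)
    (hχ : act h (by omega) χ (e (Fin.last n), 0) = (e (Fin.last n), 0)) :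
    Commute (q χ) (q (tA h (Fin.last n))) := by
  have hn1 : 1 ≤ n := by omega
  have h0 : PK.phG h χ (e (Fin.last n)) = e (Fin.last n) := by
    have := congrArg Prod.fst hχ
    exact this
  obtain ⟨c, hc, h1⟩ := PK.lift_Mcs h h0
  let c' : MMs h := ⟨c, PK.Mcs_MMs h hc⟩
  have h2 : H1 h (c'⁻¹ * χ).1 = 1 := by
    change H1 h (c⁻¹ * χ.1) = 1
    rw [map_mul, map_inv, h1, PK.phG_val, inv_mul_cancel]
  obtain ⟨y, hy⟩ := exists_TL h (c'⁻¹ * χ).2 h2
  have h3 := act_TL h hn1 (c'⁻¹ * χ) hy (e (Fin.last n), 0)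
  have h4 : act h hn1 (c'⁻¹ * χ) (e (Fin.last n), 0) = (e (Fin.last n), 0) := by
    rw [map_mul]
    change act h hn1 c'⁻¹ (act h hn1 χ _) = _
    rw [hχ]
    exact act_inv_fix h hn1 (Mcs_act h hn1 hc)
  rw [h4] at h3
  have h5 : om y (e (Fin.last n)) = 0 := by
    have := congrArg Prod.snd h3
    change (0 : ℤ) = 0 + 2 * om y (e (Fin.last n)) at this
    omega
  obtain ⟨d, hd, h6⟩ := exists_Mcs_TL h hn y h5
  let d' : MMs h := ⟨d, PK.Mcs_MMs h hd⟩
  have h7 : TL a b (c'⁻¹ * χ * d'⁻¹).1 0 := by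
    have := hy.mul h6.inv
    rwa [add_neg_cancel] at this
  have h8 : χ = c' * (c'⁻¹ * χ * d'⁻¹) * d' := by group
  rw [h8, map_mul, map_mul]
  have k1 : Commute c' (tA h (Fin.last n)) := Subtype.ext (Mcs_comm h hc)
  have k2 : Commute d' (tA h (Fin.last n)) := Subtype.ext (Mcs_comm h hd)
  exact ((k1.map q).mul_left (hq _ h7 _)).mul_left (k2.map q)

open Classical in
/-- The image of the positive twist about a curve with framed class `u`. -/
noncomputable def TQ (h : IsSurf a b) (hn : 1 ≤ n) (q : MMs h →* Q) (u : U (n + 1)) : Q :=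
  if hu : ∃ g : MMs h, act h hn g (e (Fin.last n), 0) = u then
    q (hu.choose * tA h (Fin.last n) * hu.choose⁻¹) else 1

theorem TQ_eq (h : IsSurf a b) (hn : 2 ≤ n) (q : MMs h →* Q) (hq : Cz h q) (g : MMs h)
    {u : U (n + 1)} (hu : act h (by omega) g (e (Fin.last n), 0) = u) :
    TQ h (by omega) q u = q (g * tA h (Fin.last n) * g⁻¹) := by
  have hn1 : 1 ≤ n := by omega
  have hex : ∃ g : MMs h, act h hn1 g (e (Fin.last n), 0) = u := ⟨g, hu⟩
  rw [TQ, dif_pos hex]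
  set k := hex.choose with hk
  have hk2 : act h hn1 k (e (Fin.last n), 0) = u := hex.choose_spec
  have h1 : act h hn1 (g⁻¹ * k) (e (Fin.last n), 0) = (e (Fin.last n), 0) := by
    rw [map_mul]
    change act h hn1 g⁻¹ (act h hn1 k _) = _
    rw [hk2, ← hu]
    have : act h hn1 (g⁻¹ * g) (e (Fin.last n), 0) = (e (Fin.last n), 0) := by
      rw [inv_mul_cancel, map_one]; rfl
    rw [map_mul] at this
    exact this
  have h2 := comm_of_fix h hn q hq (g⁻¹ * k) h1
  have h3 : k * tA h (Fin.last n) * k⁻¹ =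
      g * ((g⁻¹ * k) * tA h (Fin.last n) * (g⁻¹ * k)⁻¹) * g⁻¹ := by group
  rw [h3]
  simp only [map_mul q, map_inv q] at h2 ⊢
  rw [h2.eq]
  group

end tw

end Pool.Agent.H.MP_59b15d_al.H73X
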