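/-
The fields `eqv`, `tact`, `sym` of the local data, and the twists in terms of the pushes.
-/
import Pool.Agent.H.MP_59b15d_al.h73x.Tw

set_option autoImplicit false

namespace Pool.Agent.H.MP_59b15d_al.H73X

open Pool.Agent.H.MP_59b15d_al.SP
open Pool.Agent.H.MP_59b15d_al.H93C
open Pool.MP_59b15d_al.H24T Pool.MP_59b15d_al.H76R Pool.MP_59b15d_al.H73E
open Pool.MP_59b15d_al.H60G
open FreeGroup (of)

variable {n : ℕ} {G : Type*} [Group G] {a b : Fin (n + 1) → G} {Q : Type*} [Group Q]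

theorem act_mul' (h : IsSurf a b) (hn : 1 ≤ n) (g k : MMs h) (x : U (n + 1)) :
    act h hn (g * k) x = act h hn g (act h hn k x) := by
  rw [map_mul]; rfl

theorem act_inv_self (h : IsSurf a b) (hn : 1 ≤ n) (g : MMs h) (x : U (n + 1)) :
    act h hn g⁻¹ (act h hn g x) = x := by
  rw [← act_mul', inv_mul_cancel, map_one]; rfl

theorem act_self_inv (h : IsSurf a b) (hn : 1 ≤ n) (g : MMs h) (x : U (n + 1)) :
    act h hn g (act h hn g⁻¹ x) = x := by
  rw [← act_mul', mul_inv_cancel, map_one]; rfl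

theorem eqv (h : IsSurf a b) (hn : 2 ≤ n) (q : MMs h →* Q) (hq : Cz h q) (g : MMs h)
    (u : U (n + 1)) (hu : u ∈ Om (act h (by omega)) (Fin.last n)) :
    q g * TQ h (by omega) q u * (q g)⁻¹ = TQ h (by omega) q (act h (by omega) g u) := by
  obtain ⟨k, hk⟩ := hu
  rw [TQ_eq h hn q hq k hk, TQ_eq h hn q hq (g * k) (by rw [act_mul', hk])]
  simp only [map_mul, map_inv, mul_inv_rev, mul_assoc]

theorem act_tA_conj (h : IsSurf a b) (hn : 1 ≤ n) (g : MMs h) (i : Fin (n + 1)) (x : U (n + 1)) :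
    act h hn (g * tA h i * g⁻¹) x =
      x + om (act h hn g (e i, 0)).1 x.1 • (act h hn g (e i, 0) - (0, 1)) := by
  rw [act_mul', act_mul', act_tA, map_add, act_self_inv, map_smul, map_sub, act_fix]
  have h1 := act_sp h hn g (e i, 0) (act h hn g⁻¹ x)
  rw [act_self_inv] at h1
  rw [← h1]

theorem tact (h : IsSurf a b) (hn : 2 ≤ n) (q : MMs h →* Q) (hq : Cz h q)
    (u : U (n + 1)) (hu : u ∈ Om (act h (by omega)) (Fin.last n)) :
    ∃ g : MMs h, q g = TQ h (by omega) q u ∧
      ∀ x : U (n + 1), act h (by omega) g x = x + om u.1 x.1 • (u - (0, 1)) := by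
  obtain ⟨k, rfl⟩ := hu
  exact ⟨k * tA h (Fin.last n) * k⁻¹, (TQ_eq h hn q hq k rfl).symm,
    act_tA_conj h (by omega) k _⟩

theorem comm_of_om (h : IsSurf a b) (hn : 2 ≤ n) (q : MMs h →* Q) (hq : Cz h q)
    {u u' : U (n + 1)} (hu : u ∈ Om (act h (by omega)) (Fin.last n))
    (hu' : u' ∈ Om (act h (by omega)) (Fin.last n)) (h0 : om u.1 u'.1 = 0) :
    Commute (TQ h (by omega) q u) (TQ h (by omega) q u') := by
  obtain ⟨g, h1, h2⟩ := tact h hn q hq u hu
  have h3 := eqv h hn q hq g u' hu'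
  rw [h2, h0, zero_smul, add_zero, h1, mul_inv_eq_iff_eq_mul] at h3
  exact h3

/-- The half turn of a handle. -/
noncomputable def hr (h : IsSurf a b) (i : Fin (n + 1)) : MMs h :=
  ((tA h i)⁻¹ * tB h i) ^ 3

theorem act_tAi (h : IsSurf a b) (hn : 1 ≤ n) (i : Fin (n + 1)) (x : U (n + 1)) :
    act h hn (tA h i)⁻¹ x = x - om (e i) x.1 • ((e i, 0) - (0, 1) : U (n + 1)) := by
  have h1 : act h hn (tA h i) (x - om (e i) x.1 • ((e i, 0) - (0, 1) : U (n + 1))) = x := by
    rw [act_tA]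
    have h2 : (x - om (e i) x.1 • ((e i, 0) - (0, 1) : U (n + 1))).1 =
        x.1 - om (e i) x.1 • e i := by
      change x.1 - om (e i) x.1 • (e i - 0) = _
      rw [sub_zero]
    rw [h2, om_sub_right, om_smul_right, om_e_e, mul_zero, sub_zero, sub_add_cancel]
  conv_lhs => rw [← h1]
  rw [act_inv_self]

theorem act_tBi (h : IsSurf a b) (hn : 1 ≤ n) (i : Fin (n + 1)) (x : U (n + 1)) :
    act h hn (tB h i)⁻¹ x = x + om (f i) x.1 • ((f i, 2) - (0, 1) : U (n + 1)) := by
  have h1 : act h hn (tB h i) (x + om (f i) x.1 • ((f i, 2) - (0, 1) : U (n + 1))) = x := by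
    rw [act_tB]
    have h2 : (x + om (f i) x.1 • ((f i, 2) - (0, 1) : U (n + 1))).1 =
        x.1 + om (f i) x.1 • f i := by
      change x.1 + om (f i) x.1 • (f i - 0) = _
      rw [sub_zero]
    rw [h2, om_add_right, om_smul_right, om_f_f, mul_zero, add_zero, add_sub_cancel_right]
  conv_lhs => rw [← h1]
  rw [act_inv_self]

theorem act_hr (h : IsSurf a b) (hn : 1 ≤ n) (i : Fin (n + 1)) :
    act h hn (hr h i) (e i, 0) = (0, 2) - (e i, 0) := by
  have s1 : act h hn ((tA h i)⁻¹ * tB h i) (e i, 0) = (f i, 2) := by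
    rw [act_mul', act_tB, act_tAi]
    have h1 : om (f i) ((e i, 0) : U (n + 1)).1 = -1 := om_f_e i
    rw [h1]
    have h2 : (((e i, 0) : U (n + 1)) - (-1 : ℤ) • (((f i, 2) - (0, 1)) : U (n + 1))) =
        (e i + f i, 1) := by
      refine Prod.ext ?_ ?_
      · change e i - (-1 : ℤ) • (f i - 0) = e i + f i
        module
      · change (0 : ℤ) - (-1) * (2 - 1) = 1
        ring
    rw [h2]
    have h3 : om (e i) ((e i + f i, 1) : U (n + 1)).1 = 1 := by
      change om (e i) (e i + f i) = 1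
      rw [om_add_right, om_e_e, om_e_f]; ring
    rw [h3]
    refine Prod.ext ?_ ?_
    · change e i + f i - (1 : ℤ) • (e i - 0) = f i
      module
    · change (1 : ℤ) - 1 * (0 - 1) = 2
      ring
  have s2 : act h hn ((tA h i)⁻¹ * tB h i) (f i, 2) = (f i - e i, 3) := by
    rw [act_mul', act_tB, act_tAi]
    have h1 : om (f i) ((f i, 2) : U (n + 1)).1 = 0 := om_f_f i i
    rw [h1, zero_smul, sub_zero]
    have h3 : om (e i) ((f i, 2) : U (n + 1)).1 = 1 := om_e_f i
    rw [h3]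
    refine Prod.ext ?_ ?_
    · change f i - (1 : ℤ) • (e i - 0) = f i - e i
      module
    · change (2 : ℤ) - 1 * (0 - 1) = 3
      ring
  have s3 : act h hn ((tA h i)⁻¹ * tB h i) (f i - e i, 3) = (0, 2) - (e i, 0) := by
    rw [act_mul', act_tB, act_tAi]
    have h1 : om (f i) ((f i - e i, 3) : U (n + 1)).1 = 1 := by
      change om (f i) (f i - e i) = 1
      rw [om_sub_right, om_f_f, om_f_e]; ring
    rw [h1]
    have h2 : (((f i - e i, 3) : U (n + 1)) - (1 : ℤ) • (((f i, 2) - (0, 1)) : U (n + 1))) =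
        (-e i, 2) := by
      refine Prod.ext ?_ ?_
      · change f i - e i - (1 : ℤ) • (f i - 0) = -e i
        module
      · change (3 : ℤ) - 1 * (2 - 1) = 2
        ring
    rw [h2]
    have h3 : om (e i) ((-e i, 2) : U (n + 1)).1 = 0 := by
      change om (e i) (-e i) = 0
      rw [om_neg_right, om_e_e, neg_zero]
    rw [h3, zero_smul, sub_zero]
    refine Prod.ext ?_ ?_
    · change -e i = 0 - e i
      module
    · rfl
  rw [hr, pow_succ, pow_two, act_mul', act_mul', s1, s2, s3]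

lemma braid_cube {S : Type*} [Group S] {A B : S} (hb : A * B * A = B * A * B) :
    Commute ((A * B) ^ 3) A ∧ Commute ((A * B) ^ 3) B := by
  have h1 : (A * B * A) * A = B * (A * B * A) := by
    calc (A * B * A) * A = (B * A * B) * A := by rw [hb]
      _ = _ := by group
  have h2 : (A * B * A) * B = A * (A * B * A) := by
    calc (A * B * A) * B = A * (B * A * B) := by group
      _ = _ := by rw [← hb]
  have h3 : (A * B) ^ 3 = (A * B * A) * (A * B * A) := by
    calc (A * B) ^ 3 = (A * B * A) * (B * A * B) := by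
          simp only [pow_succ, pow_zero, one_mul, mul_assoc]
      _ = _ := by rw [← hb]
  constructor
  · change (A * B) ^ 3 * A = A * (A * B) ^ 3
    rw [h3, mul_assoc, h1, ← mul_assoc, h2, mul_assoc]
  · change (A * B) ^ 3 * B = B * (A * B) ^ 3
    rw [h3, mul_assoc, h2, ← mul_assoc, h1, mul_assoc]

theorem braid_tAB (h : IsSurf a b) (i : Fin (n + 1)) :
    (tA h i)⁻¹ * tB h i * (tA h i)⁻¹ = tB h i * (tA h i)⁻¹ * tB h i := by
  apply Subtype.ext
  have h1 := congrArg (fun x => x⁻¹) (braid_AB h i)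
  simp only [mul_inv_rev, inv_inv] at h1
  change (TA h i)⁻¹ * TB h i * (TA h i)⁻¹ = TB h i * (TA h i)⁻¹ * TB h i
  rw [mul_assoc, mul_assoc]
  exact h1

theorem hr_comm (h : IsSurf a b) (i : Fin (n + 1)) : Commute (hr h i) (tA h i) := by
  have h1 := (braid_cube (braid_tAB h i)).1
  rw [hr]
  have h2 := h1.inv_right
  rwa [inv_inv] at h2

theorem sym (h : IsSurf a b) (hn : 2 ≤ n) (q : MMs h →* Q) (hq : Cz h q)
    (u : U (n + 1)) (hu : u ∈ Om (act h (by omega)) (Fin.last n)) :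
    TQ h (by omega) q ((0, 2) - u) = TQ h (by omega) q u := by
  obtain ⟨g, rfl⟩ := hu
  have h1 : act h (by omega) (g * hr h (Fin.last n)) (e (Fin.last n), 0) =
      (0, 2) - act h (by omega) g (e (Fin.last n), 0) := by
    rw [act_mul', act_hr, map_sub, act_fix]
  rw [TQ_eq h hn q hq _ h1, TQ_eq h hn q hq g rfl]
  have h2 := hr_comm h (Fin.last n)
  congr 1
  calc g * hr h (Fin.last n) * tA h (Fin.last n) * (g * hr h (Fin.last n))⁻¹ =
      g * (hr h (Fin.last n) * tA h (Fin.last n)) * (hr h (Fin.last n))⁻¹ * g⁻¹ := by group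
    _ = _ := by rw [h2.eq]; group

/-- A framed class together with the twist about it. -/
def Tw (h : IsSurf a b) (hn : 1 ≤ n) (q : MMs h →* Q) (u : U (n + 1)) (x : MMs h) : Prop :=
  u ∈ Om (act h hn) (Fin.last n) ∧ TQ h hn q u = q x

theorem Tw.conj (h : IsSurf a b) (hn : 2 ≤ n) (q : MMs h →* Q) (hq : Cz h q) {u : U (n + 1)}
    {x : MMs h} (hu : Tw h (by omega) q u x) (g : MMs h) {u' : U (n + 1)} {x' : MMs h}
    (hu' : act h (by omega) g u = u') (hx' : g * x = x' * g) : Tw h (by omega) q u' x' := by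
  refine ⟨?_, ?_⟩
  · obtain ⟨k, hk⟩ := hu.1
    exact ⟨g * k, by rw [act_mul', hk, hu']⟩
  · rw [← hu', ← eqv h hn q hq g u hu.1, hu.2, ← map_mul, hx', map_mul, mul_inv_cancel_right]

theorem Tw.sym (h : IsSurf a b) (hn : 2 ≤ n) (q : MMs h →* Q) (hq : Cz h q) {u : U (n + 1)}
    {x : MMs h} (hu : Tw h (by omega) q u x) : Tw h (by omega) q ((0, 2) - u) x := by
  refine ⟨?_, ?_⟩
  · obtain ⟨k, rfl⟩ := hu.1
    exact ⟨k * hr h (Fin.last n), by rw [act_mul', act_hr, map_sub, act_fix]⟩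
  · rw [H73X.sym h hn q hq u hu.1, hu.2]

theorem Tw_last (h : IsSurf a b) (hn : 2 ≤ n) (q : MMs h →* Q) (hq : Cz h q) :
    Tw h (by omega) q (e (Fin.last n), 0) (tA h (Fin.last n)) := by
  refine ⟨⟨1, by rw [map_one]; rfl⟩, ?_⟩
  rw [TQ_eq h hn q hq 1 (by rw [map_one]; rfl), one_mul, inv_one, mul_one]

theorem Tw_B_of_A (h : IsSurf a b) (hn : 2 ≤ n) (q : MMs h →* Q) (hq : Cz h q) {i : Fin (n + 1)}
    (hA : Tw h (by omega) q (e i, 0) (tA h i)) : Tw h (by omega) q (f i, 2) (tB h i)⁻¹ := by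
  refine hA.conj h hn q hq ((tA h i)⁻¹ * tB h i) ?_ ?_
  · rw [act_mul', act_tB, act_tAi]
    have h1 : om (f i) ((e i, 0) : U (n + 1)).1 = -1 := om_f_e i
    rw [h1]
    have h2 : (((e i, 0) : U (n + 1)) - (-1 : ℤ) • (((f i, 2) - (0, 1)) : U (n + 1))) =
        (e i + f i, 1) := by
      refine Prod.ext ?_ ?_
      · change e i - (-1 : ℤ) • (f i - 0) = e i + f i
        module
      · change (0 : ℤ) - (-1) * (2 - 1) = 1
        ring
    rw [h2]
    have h3 : om (e i) ((e i + f i, 1) : U (n + 1)).1 = 1 := by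
      change om (e i) (e i + f i) = 1
      rw [om_add_right, om_e_e, om_e_f]; ring
    rw [h3]
    refine Prod.ext ?_ ?_
    · change e i + f i - (1 : ℤ) • (e i - 0) = f i
      module
    · change (1 : ℤ) - 1 * (0 - 1) = 2
      ring
  · have h1 := braid_tAB h i
    have h2 : tB h i * ((tA h i)⁻¹ * tB h i) = (tA h i)⁻¹ * tB h i * (tA h i)⁻¹ := by
      rw [h1]; group
    calc (tA h i)⁻¹ * tB h i * tA h i =
        (tB h i)⁻¹ * (tB h i * ((tA h i)⁻¹ * tB h i)) * tA h i := by group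
      _ = _ := by rw [h2]; group

theorem act_tCi (h : IsSurf a b) (hn : 1 ≤ n) {i j : Fin (n + 1)} (hij : (j : ℕ) = i + 1)
    (x : U (n + 1)) : act h hn (tC h hij)⁻¹ x =
      x + om (f i - e j) x.1 • ((f i - e j, 2) - (0, 1) : U (n + 1)) := by
  have h1 : act h hn (tC h hij) (x + om (f i - e j) x.1 • ((f i - e j, 2) - (0, 1) : U (n + 1))) =
      x := by
    rw [act_tC]
    have h2 : (x + om (f i - e j) x.1 • ((f i - e j, 2) - (0, 1) : U (n + 1))).1 =
        x.1 + om (f i - e j) x.1 • (f i - e j) := by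
      change x.1 + om (f i - e j) x.1 • (f i - e j - 0) = _
      rw [sub_zero]
    rw [h2, om_add_right, om_smul_right, om_self, mul_zero, add_zero, add_sub_cancel_right]
  conv_lhs => rw [← h1]
  rw [act_inv_self]

theorem Tw_C_of_B (h : IsSurf a b) (hn : 2 ≤ n) (q : MMs h →* Q) (hq : Cz h q)
    {i j : Fin (n + 1)} (hij : (j : ℕ) = i + 1)
    (hB : Tw h (by omega) q (f j, 2) (tB h j)⁻¹) :
    Tw h (by omega) q (f i - e j, 2) (tC h hij)⁻¹ := by
  have hne : i ≠ j := ne_of_hij hij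
  refine hB.conj h hn q hq (tB h j * tC h hij) ?_ ?_
  · rw [act_mul', act_tC, act_tB]
    have h1 : om (f i - e j) ((f j, 2) : U (n + 1)).1 = -1 := by
      change om (f i - e j) (f j) = -1
      rw [om_sub_left, om_f_f, om_e_f]; ring
    rw [h1]
    have h2 : (((f j, 2) : U (n + 1)) - (-1 : ℤ) • (((f i - e j, 2) - (0, 1)) : U (n + 1))) =
        (f j + f i - e j, 3) := by
      refine Prod.ext ?_ ?_
      · change f j - (-1 : ℤ) • (f i - e j - 0) = f j + f i - e j
        module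
      · change (2 : ℤ) - (-1) * (2 - 1) = 3
        ring
    rw [h2]
    have h3 : om (f j) ((f j + f i - e j, 3) : U (n + 1)).1 = 1 := by
      change om (f j) (f j + f i - e j) = 1
      rw [om_sub_right, om_add_right, om_f_f, om_f_f, om_f_e]; ring
    rw [h3]
    refine Prod.ext ?_ ?_
    · change f j + f i - e j - (1 : ℤ) • (f j - 0) = f i - e j
      module
    · change (3 : ℤ) - 1 * (2 - 1) = 2
      ring
  · have h1 : tC h hij * tB h j * tC h hij = tB h j * tC h hij * tB h j :=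
      Subtype.ext (braid_CB h hij)
    calc tB h j * tC h hij * (tB h j)⁻¹ =
        (tC h hij)⁻¹ * (tC h hij * tB h j * tC h hij) * (tB h j)⁻¹ := by group
      _ = _ := by rw [h1]; group

theorem Tw_A_of_C (h : IsSurf a b) (hn : 2 ≤ n) (q : MMs h →* Q) (hq : Cz h q)
    {i j : Fin (n + 1)} (hij : (j : ℕ) = i + 1)
    (hC : Tw h (by omega) q (f i - e j, 2) (tC h hij)⁻¹) :
    Tw h (by omega) q (e i, 0) (tA h i) := by
  have hne : i ≠ j := ne_of_hij hij
  have key : Tw h (by omega) q ((0, 2) - (e i, 0)) (tA h i) := by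
    refine hC.conj h hn q hq (tC h hij * (tA h i)⁻¹) ?_ ?_
    · rw [act_mul', act_tAi, act_tC]
      have h1 : om (e i) ((f i - e j, 2) : U (n + 1)).1 = 1 := by
        change om (e i) (f i - e j) = 1
        rw [om_sub_right, om_e_e, om_e_f]; ring
      rw [h1]
      have h2 : (((f i - e j, 2) : U (n + 1)) - (1 : ℤ) • (((e i, 0) - (0, 1)) : U (n + 1))) =
          (f i - e j - e i, 3) := by
        refine Prod.ext ?_ ?_
        · change f i - e j - (1 : ℤ) • (e i - 0) = f i - e j - e i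
          module
        · change (2 : ℤ) - 1 * (0 - 1) = 3
          ring
      rw [h2]
      have h3 : om (f i - e j) ((f i - e j - e i, 3) : U (n + 1)).1 = 1 := by
        change om (f i - e j) (f i - e j - e i) = 1
        rw [om_sub_right, om_self, om_sub_left, om_f_e, om_e_e]; ring
      rw [h3]
      refine Prod.ext ?_ ?_
      · change f i - e j - e i - (1 : ℤ) • (f i - e j - 0) = 0 - e i
        module
      · change (3 : ℤ) - 1 * (2 - 1) = 2 - 0
        ring
    · have h1 : tC h hij * (tA h i)⁻¹ * tC h hij = (tA h i)⁻¹ * tC h hij * (tA h i)⁻¹ :=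
        Subtype.ext (braid_CA h hij)
      calc tC h hij * (tA h i)⁻¹ * (tC h hij)⁻¹ =
          tA h i * ((tA h i)⁻¹ * tC h hij * (tA h i)⁻¹) * (tC h hij)⁻¹ := by group
        _ = _ := by rw [← h1]; group
  have h4 := key.sym h hn q hq
  rwa [sub_sub_cancel] at h4

/-- The twists about the standard curves. -/
theorem Tw_A (h : IsSurf a b) (hn : 2 ≤ n) (q : MMs h →* Q) (hq : Cz h q) (i : Fin (n + 1)) :
    Tw h (by omega) q (e i, 0) (tA h i) := by
  have key : ∀ d : ℕ, ∀ i : Fin (n + 1), (i : ℕ) + d = n → Tw h (by omega) q (e i, 0) (tA h i) := by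
    intro d
    induction d with
    | zero =>
      intro i hi
      have : i = Fin.last n := Fin.ext (by rw [Fin.val_last]; omega)
      rw [this]
      exact Tw_last h hn q hq
    | succ d ih =>
      intro i hi
      have hij : (((⟨i + 1, by omega⟩ : Fin (n + 1)) : ℕ)) = (i : ℕ) + 1 := rfl
      exact Tw_A_of_C h hn q hq hij (Tw_C_of_B h hn q hq hij
        (Tw_B_of_A h hn q hq (ih ⟨i + 1, by omega⟩ (by simp only; omega))))
  exact key (n - i) i (by have := i.2; omega)

theorem Tw_B (h : IsSurf a b) (hn : 2 ≤ n) (q : MMs h →* Q) (hq : Cz h q) (i : Fin (n + 1)) :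
    Tw h (by omega) q (f i, 2) (tB h i)⁻¹ :=
  Tw_B_of_A h hn q hq (Tw_A h hn q hq i)

theorem Tw_C (h : IsSurf a b) (hn : 2 ≤ n) (q : MMs h →* Q) (hq : Cz h q)
    {i j : Fin (n + 1)} (hij : (j : ℕ) = i + 1) :
    Tw h (by omega) q (f i - e j, 2) (tC h hij)⁻¹ :=
  Tw_C_of_B h hn q hq hij (Tw_B h hn q hq j)

end Pool.Agent.H.MP_59b15d_al.H73X
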