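/-
The twists in terms of the pushes; the lanterns; the separating twist of genus one.
-/
import Pool.Agent.H.MP_59b15d_al.h73x.Fld

set_option autoImplicit false

namespace Pool.Agent.H.MP_59b15d_al.H73X

open Pool.Agent.H.MP_59b15d_al.SP
open Pool.Agent.H.MP_59b15d_al.H93C
open Pool.MP_59b15d_al.H24T Pool.MP_59b15d_al.H76R Pool.MP_59b15d_al.H73E
open Pool.MP_59b15d_al.H60G
open FreeGroup (of)

lemma hs_of_eq {m : ℕ} {x y : Fr m} (h1 : clr x = clr y) (h2 : WD x = WD y) : hs x = hs y := by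
  have h3 : (hs x).s = (hs y).s := by
    rw [WD, WD, wd, wd] at h2
    have h4 : (hs x).v = (hs y).v := h1
    rw [h4] at h2
    omega
  have h5 : ∀ {p r : Hs m}, p.v = r.v → p.s = r.s → p = r := by
    rintro ⟨_, _⟩ ⟨_, _⟩ rfl rfl
    rfl
  exact h5 h1 h3

lemma WD_io {n : ℕ} (y : Fr n) : WD (io n y) = WD y := by
  have hco : ∀ v w : V n, co (emb v) (emb w) = co v w := by
    intro v w
    rw [co, Fin.sum_univ_castSucc, co]
    simp only [emb_cs, emb_last]
    simp
  rw [WD, WD, wd, wd, (hs_io y).1, (hs_io y).2, hco]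

variable {n : ℕ} {G : Type*} [Group G] {a b : Fin (n + 1) → G} {Q : Type*} [Group Q]

/-- The pushes as elements of the mapping class group. -/
noncomputable def xX (h : IsSurf a b) : Fr n →* MMs h :=
  (XX h).codRestrict (MMs h) (fun y => PK.XX_MMs h y)

theorem xX_val (h : IsSurf a b) (y : Fr n) : (xX h y).1 = XX h y := rfl

/-- Conjugation of a push by an element of the first handles. -/
theorem conj_xX (h : IsSurf a b) (hn : 1 ≤ n) {f : MMs h} (hf : f.1 ∈ MR h 0 n) :
    ∃ f' : MulAut (Fr n),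
    (∀ y, act h hn f (emb (clr y), WD y) = (emb (clr (f' y)), WD (f' y))) ∧
    ∀ y, f * xX h y * f⁻¹ = xX h (f' y) * tA h (Fin.last n) ^ (wn (hs y) - wn (hs (f' y))) := by
  obtain ⟨f', F, h1, h2, h3, -, -⟩ := exists_block h hf
  refine ⟨f', fun y => ?_, fun y => ?_⟩
  · have h4 := act_lift h hn f h2 (io n y)
    rw [clr_io, WD_io, h3, clr_io, WD_io] at h4
    exact h4
  · obtain ⟨k, hk⟩ := h1.fX y
    have h5 := pair_exp h h1 y k hk
    apply Subtype.ext
    have h6 : (tA h (Fin.last n) ^ (wn (hs y) - wn (hs (f' y)))).1 =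
        TT h ^ (wn (hs y) - wn (hs (f' y))) := by
      rw [SubgroupClass.coe_zpow]; rfl
    change f.1 * XX h y * f.1⁻¹ = XX h (f' y) *
      (tA h (Fin.last n) ^ (wn (hs y) - wn (hs (f' y)))).1
    rw [h6, hk, h5]

theorem tB_comm_xX (h : IsSurf a b) (k : Fin n) :
    Commute (tB h k.castSucc) (xX h (of (Sum.inr k))) := by
  have hp := pair_TB h k
  obtain ⟨l, hl⟩ := hp.fX (of (Sum.inr k))
  have h1 := pair_exp h hp _ l hl
  rw [FB_ne k (by simp), sub_self] at h1
  rw [h1, FB_ne k (by simp), zpow_zero, mul_one, mul_inv_eq_iff_eq_mul] at hl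
  exact Subtype.ext hl

theorem tC_eq (h : IsSurf a b) (k : Fin n) (hk : ((Fin.last n : Fin (n + 1)) : ℕ) =
    k.castSucc + 1) : tC h hk = xX h (of (Sum.inr k)) * tB h k.castSucc := by
  apply Subtype.ext
  change TC h k.castSucc (Fin.last n) hk = XX h (of (Sum.inr k)) * TB h k.castSucc
  rw [XX_b, X0_eq h k hk]

theorem act_fix_block (h : IsSurf a b) (hn : 1 ≤ n) {f : MMs h} (hf : f.1 ∈ MR h 0 n) :
    act h hn f (e (Fin.last n), 0) = (e (Fin.last n), 0) := by
  refine Mcs_act h hn ?_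
  have hle : MR h 0 n ≤ PK.Mcs h := by
    refine MR_le h (fun i _ h2 => ?_) (fun i _ h2 => ?_) (fun i j hij _ h2 => ?_)
    · exact Subgroup.subset_closure (Or.inl ⟨_, rfl⟩)
    · exact Subgroup.subset_closure (Or.inr (Or.inl ⟨⟨i, by omega⟩, rfl⟩))
    · exact Subgroup.subset_closure (Or.inr (Or.inr ⟨_, _, _, rfl⟩))
  exact hle hf

theorem block_comm (h : IsSurf a b) {f : MMs h} (hf : f.1 ∈ MR h 0 n) :
    Commute f (tA h (Fin.last n)) := by
  obtain ⟨f', hp⟩ := pair_of_MR h le_rfl f.1 hf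
  exact Subtype.ext (comm_TT h hp.fj hp.fa hp.fb)

/-- The twists about the sums with the last curve, in terms of the pushes. -/
theorem Tw_sum (h : IsSurf a b) (hn : 2 ≤ n) (q : MMs h →* Q) (hq : Cz h q)
    (hX : ∀ y : Fr n, hs y = 1 → q (xX h y) = 1) (k : Fin n)
    (hk : ((Fin.last n : Fin (n + 1)) : ℕ) = k.castSucc + 1) {g : MMs h} (hg : g.1 ∈ MR h 0 n)
    {y : Fr n} (hy : act h (by omega) g (-f k.castSucc, 0) = (emb (clr y), WD y)) :
    (emb (clr y), WD y) ∈ Om (act h (by omega)) (Fin.last n) ∧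
    (e (Fin.last n) + emb (clr y), WD y) ∈ Om (act h (by omega)) (Fin.last n) ∧
    TQ h (by omega) q (e (Fin.last n) + emb (clr y), WD y) =
      q (xX h y) * q (tA h (Fin.last n)) ^ (1 - wn (hs y)) *
        TQ h (by omega) q (emb (clr y), WD y) := by
  have hn1 : 1 ≤ n := by omega
  obtain ⟨g', h1, h2⟩ := conj_xX h hn1 hg
  set b0 : Fr n := (of (Sum.inr k))⁻¹ with hb0
  have c0 : clr b0 = -f k := by rw [hb0, clr_inv, clr_b]
  have w0 : WD b0 = 0 := by rw [hb0, WD_inv, WD_b, neg_zero]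
  have n0 : wn (hs b0) = 1 := by rw [hb0, map_inv, wn_inv, hs_b, wn_f, neg_neg]
  have h3 := h1 b0
  rw [c0, w0, map_neg, emb_f, hy] at h3
  have h4 : hs (g' b0) = hs y :=
    hs_of_eq (emb_inj (congrArg Prod.fst h3).symm) (congrArg Prod.snd h3).symm
  -- the two base twists
  have t1 : Tw h (by omega) q (-f k.castSucc, 0) (tB h k.castSucc)⁻¹ := by
    have := (Tw_B h hn q hq k.castSucc).sym h hn q hq
    have e1 : ((0, 2) - (f k.castSucc, 2) : U (n + 1)) = (-f k.castSucc, 0) := by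
      refine Prod.ext ?_ ?_
      · change 0 - f k.castSucc = -f k.castSucc
        abel
      · rfl
    rwa [e1] at this
  have t2 : Tw h (by omega) q (e (Fin.last n) - f k.castSucc, 0) (tC h hk)⁻¹ := by
    have := (Tw_C h hn q hq hk).sym h hn q hq
    have e1 : ((0, 2) - (f k.castSucc - e (Fin.last n), 2) : U (n + 1)) =
        (e (Fin.last n) - f k.castSucc, 0) := by
      refine Prod.ext ?_ ?_
      · change 0 - (f k.castSucc - e (Fin.last n)) = e (Fin.last n) - f k.castSucc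
        abel
      · rfl
    rwa [e1] at this
  have a1 : act h hn1 g (e (Fin.last n) - f k.castSucc, 0) =
      (e (Fin.last n) + emb (clr y), WD y) := by
    have e1 : ((e (Fin.last n) - f k.castSucc, 0) : U (n + 1)) =
        (e (Fin.last n), 0) + (-f k.castSucc, 0) := by
      refine Prod.ext ?_ ?_
      · change e (Fin.last n) - f k.castSucc = e (Fin.last n) + -f k.castSucc
        abel
      · rfl
    rw [e1, map_add, act_fix_block h hn1 hg, hy]
    refine Prod.ext rfl ?_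
    change 0 + WD y = WD y
    ring
  have s1 : Tw h (by omega) q (emb (clr y), WD y) (g * (tB h k.castSucc)⁻¹ * g⁻¹) :=
    t1.conj h hn q hq g hy (by group)
  have s2 : Tw h (by omega) q (e (Fin.last n) + emb (clr y), WD y)
      (g * (tC h hk)⁻¹ * g⁻¹) := t2.conj h hn q hq g a1 (by group)
  refine ⟨s1.1, s2.1, ?_⟩
  rw [s1.2, s2.2]
  have h5 : (tC h hk)⁻¹ = xX h b0 * (tB h k.castSucc)⁻¹ := by
    rw [tC_eq, mul_inv_rev, hb0, map_inv]
    exact ((tB_comm_xX h k).inv_inv).eq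
  have h6 := h2 b0
  have h7 : q (xX h (g' b0)) = q (xX h y) := by
    have h8 := hX ((g' b0)⁻¹ * y) (by rw [map_mul, map_inv, h4, inv_mul_cancel])
    rw [map_mul, map_inv, map_mul, map_inv] at h8
    exact inv_mul_eq_one.1 h8
  rw [← h7, h5]
  have h9 : g * (xX h b0 * (tB h k.castSucc)⁻¹) * g⁻¹ =
      (g * xX h b0 * g⁻¹) * (g * (tB h k.castSucc)⁻¹ * g⁻¹) := by group
  rw [h9, h6, h4, n0]
  simp only [map_mul, map_zpow]

end Pool.Agent.H.MP_59b15d_al.H73X
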