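/-
Explicit elements of the first handles; the lanterns.
-/
import Pool.Agent.H.MP_59b15d_al.h73x.Ln

set_option autoImplicit false

namespace Pool.Agent.H.MP_59b15d_al.H73X

open Pool.Agent.H.MP_59b15d_al.SP
open Pool.Agent.H.MP_59b15d_al.H93C
open Pool.MP_59b15d_al.H24T Pool.MP_59b15d_al.H76R Pool.MP_59b15d_al.H73E
open Pool.MP_59b15d_al.H60G
open FreeGroup (of)

variable {n : ℕ} {G : Type*} [Group G] {a b : Fin (n + 1) → G} {Q : Type*} [Group Q]

theorem stA (h : IsSurf a b) (hn : 1 ≤ n) (i : Fin (n + 1)) {v v' : V (n + 1)} {w w' : ℤ} (c : ℤ)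
    (hc : om (e i) v = c) (hv : v' = v - c • e i) (hw : w' = w + c) :
    act h hn (tA h i)⁻¹ (v, w) = (v', w') := by
  rw [act_tAi, hv, hw]
  refine Prod.ext ?_ ?_
  · change v - om (e i) v • (e i - 0) = _
    rw [hc, sub_zero]
  · change w - om (e i) v * (0 - 1) = _
    rw [hc]; ring

theorem stB (h : IsSurf a b) (hn : 1 ≤ n) (i : Fin (n + 1)) {v v' : V (n + 1)} {w w' : ℤ} (c : ℤ)
    (hc : om (f i) v = c) (hv : v' = v - c • f i) (hw : w' = w - c) :
    act h hn (tB h i) (v, w) = (v', w') := by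
  rw [act_tB, hv, hw]
  refine Prod.ext ?_ ?_
  · change v - om (f i) v • (f i - 0) = _
    rw [hc, sub_zero]
  · change w - om (f i) v * (2 - 1) = _
    rw [hc]; ring

theorem stC (h : IsSurf a b) (hn : 1 ≤ n) {i j : Fin (n + 1)} (hij : (j : ℕ) = i + 1)
    {v v' : V (n + 1)} {w w' : ℤ} (c : ℤ)
    (hc : om (f i - e j) v = c) (hv : v' = v - c • (f i - e j)) (hw : w' = w - c) :
    act h hn (tC h hij) (v, w) = (v', w') := by
  rw [act_tC, hv, hw]
  refine Prod.ext ?_ ?_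
  · change v - om (f i - e j) v • (f i - e j - 0) = _
    rw [hc, sub_zero]
  · change w - om (f i - e j) v * (2 - 1) = _
    rw [hc]; ring

theorem g1_act (h : IsSurf a b) (hn : 1 ≤ n) (k : Fin (n + 1)) :
    act h hn (tB h k * (tA h k)⁻¹) (-f k, 0) = (e k, 0) := by
  rw [act_mul', stA h hn k (v' := e k - f k) (w' := -1) (-1) (by
      rw [om_neg_right, om_e_f]) (by module) (by ring),
    stB h hn k (v' := e k) (w' := 0) (-1) (by
      rw [om_sub_right, om_f_f, om_f_e]; ring) (by module) (by ring)]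

theorem tC0 (h : IsSurf a b) (hn : 1 ≤ n) {j k : Fin (n + 1)} (hjk : (k : ℕ) = j + 1) :
    act h hn (tC h hjk) (-f k, 0) = (e k - f k - f j, -1) := by
  exact stC h hn hjk 1 (by rw [om_neg_right, om_sub_left, om_f_f, om_e_f]; ring)
    (by module) (by ring)

theorem g0_act (h : IsSurf a b) (hn : 1 ≤ n) {j k : Fin (n + 1)} (hjk : (k : ℕ) = j + 1) :
    act h hn (tC h hjk * (tB h k * ((tA h j)⁻¹ * tC h hjk))) (-f k, 0) = (e j, 0) := by
  have hne : j ≠ k := ne_of_hij hjk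
  rw [act_mul', act_mul', act_mul', tC0,
    stA h hn j (v' := e j + e k - f k - f j) (w' := -2) (-1) (by
      rw [om_sub_right, om_sub_right, om_e_e, om_e_f_ne hne, om_e_f]; ring) (by module) (by ring),
    stB h hn k (v' := e j + e k - f j) (w' := -1) (-1) (by
      rw [om_sub_right, om_sub_right, om_add_right, om_f_f, om_f_f, om_f_e,
        om_f_e_ne hne.symm]; ring) (by module) (by ring),
    stC h hn hjk (v' := e j) (w' := 0) (-1) (by
      rw [om_sub_right, om_add_right, om_sub_left, om_sub_left, om_sub_left, om_f_f, om_f_e,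
        om_f_e_ne hne, om_e_e, om_e_e, om_e_f_ne hne.symm]; ring) (by module) (by ring)]

theorem g01_act (h : IsSurf a b) (hn : 1 ≤ n) {j k : Fin (n + 1)} (hjk : (k : ℕ) = j + 1) :
    act h hn (tB h k * (tB h j * ((tA h j)⁻¹ * tC h hjk))) (-f k, 0) = (e j + e k, 0) := by
  have hne : j ≠ k := ne_of_hij hjk
  rw [act_mul', act_mul', act_mul', tC0,
    stA h hn j (v' := e j + e k - f k - f j) (w' := -2) (-1) (by
      rw [om_sub_right, om_sub_right, om_e_e, om_e_f_ne hne, om_e_f]; ring) (by module) (by ring),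
    stB h hn j (v' := e j + e k - f k) (w' := -1) (-1) (by
      rw [om_sub_right, om_sub_right, om_add_right, om_f_f, om_f_f, om_f_e,
        om_f_e_ne hne]; ring) (by module) (by ring),
    stB h hn k (v' := e j + e k) (w' := 0) (-1) (by
      rw [om_sub_right, om_add_right, om_f_f, om_f_e, om_f_e_ne hne.symm]; ring)
      (by module) (by ring)]

lemma mA (h : IsSurf a b) (k : Fin n) : (tA h k.castSucc).1 ∈ MR h 0 n :=
  TA_mem h _ (Nat.zero_le _) k.2
lemma mB (h : IsSurf a b) (k : Fin n) : (tB h k.castSucc).1 ∈ MR h 0 n :=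
  TB_mem h _ (Nat.zero_le _) k.2
lemma mC (h : IsSurf a b) {j k : Fin n} (hjk : (k.castSucc : ℕ) = j.castSucc + 1) :
    (tC h hjk).1 ∈ MR h 0 n :=
  TC_mem h _ _ hjk (Nat.zero_le _) k.2

lemma lan_alg {S : Type*} [Group S] {P R S' Ti Tj Tl : S} (c1 : Commute Ti Tj)
    (c2 : Commute Ti Tl) (c3 : Commute Tj Tl) (c4 : Commute S' Ti) (c5 : Commute S' Tj)
    (c6 : Commute S' Tl) (c8 : Commute R Tj) (c9 : Commute R Tl) (c10 : Commute P R)
    (c11 : Commute P S') (c12 : Commute R S') :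
    P * R * S' = Ti * Tj * Tl * (S' * Ti⁻¹ * (R * Tj⁻¹) * Tl⁻¹ * P) := by
  have e1 : Ti * Tj * Tl * (S' * Ti⁻¹) = S' * (Tj * Tl) := by
    calc Ti * Tj * Tl * (S' * Ti⁻¹) = Ti * Tj * (Tl * S') * Ti⁻¹ := by group
      _ = Ti * (Tj * S') * Tl * Ti⁻¹ := by rw [← c6.eq]; group
      _ = (Ti * S') * Tj * Tl * Ti⁻¹ := by rw [← c5.eq]; group
      _ = S' * (Ti * Tj) * Tl * Ti⁻¹ := by rw [← c4.eq]; group
      _ = S' * Tj * (Ti * Tl) * Ti⁻¹ := by rw [c1.eq]; group
      _ = _ := by rw [c2.eq]; group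
  have e2 : Tj * Tl * (R * Tj⁻¹) = R * Tl := by
    calc Tj * Tl * (R * Tj⁻¹) = Tj * (Tl * R) * Tj⁻¹ := by group
      _ = (Tj * R) * Tl * Tj⁻¹ := by rw [← c9.eq]; group
      _ = R * (Tj * Tl) * Tj⁻¹ := by rw [← c8.eq]; group
      _ = _ := by rw [c3.eq]; group
  calc P * R * S' = S' * R * P := by rw [mul_assoc, c12.eq, ← mul_assoc, c11.eq, mul_assoc, c10.eq,
        ← mul_assoc]
    _ = S' * (Tj * Tl * (R * Tj⁻¹)) * Tl⁻¹ * P := by rw [e2]; group
    _ = (S' * (Tj * Tl)) * (R * Tj⁻¹) * Tl⁻¹ * P := by group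
    _ = _ := by rw [← e1]; group

section lan

variable (h : IsSurf a b) (hn : 2 ≤ n) (q : MMs h →* Q) (hq : Cz h q)
  (hX : ∀ y : Fr n, hs y = 1 → q (xX h y) = 1) {j k : Fin n}
  (hk : ((Fin.last n : Fin (n + 1)) : ℕ) = k.castSucc + 1)
  (hjk : (k.castSucc : ℕ) = j.castSucc + 1)

include hq hX hk in
theorem sum_k : (e (Fin.last n) + e k.castSucc, 0) ∈ Om (act h (by omega)) (Fin.last n) ∧
    TQ h (by omega) q (e (Fin.last n) + e k.castSucc, 0) =
      q (xX h (of (Sum.inl k))) * TQ h (by omega) q (e k.castSucc, 0) := by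
  have h1 := Tw_sum h hn q hq hX k hk (g := tB h k.castSucc * (tA h k.castSucc)⁻¹)
    (y := of (Sum.inl k)) ((MR h 0 n).mul_mem (mB h k) ((MR h 0 n).inv_mem (mA h k)))
    (by rw [g1_act h (by omega), clr_a, emb_e, WD_a])
  rw [clr_a, emb_e, WD_a, hs_a, wn_e, sub_self, zpow_zero, mul_one] at h1
  exact h1.2

include hq hX hk hjk in
theorem sum_j : (e (Fin.last n) + e j.castSucc, 0) ∈ Om (act h (by omega)) (Fin.last n) ∧
    TQ h (by omega) q (e (Fin.last n) + e j.castSucc, 0) =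
      q (xX h (of (Sum.inl j))) * TQ h (by omega) q (e j.castSucc, 0) := by
  have h1 := Tw_sum h hn q hq hX k hk
    (g := tC h hjk * (tB h k.castSucc * ((tA h j.castSucc)⁻¹ * tC h hjk)))
    (y := of (Sum.inl j)) ((MR h 0 n).mul_mem (mC h hjk) ((MR h 0 n).mul_mem (mB h k)
      ((MR h 0 n).mul_mem ((MR h 0 n).inv_mem (mA h j)) (mC h hjk))))
    (by rw [g0_act h (by omega), clr_a, emb_e, WD_a])
  rw [clr_a, emb_e, WD_a, hs_a, wn_e, sub_self, zpow_zero, mul_one] at h1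
  exact h1.2

include hq hX hk hjk in
theorem sum_jk : (e k.castSucc + e j.castSucc, 0) ∈ Om (act h (by omega)) (Fin.last n) ∧
    (e (Fin.last n) + (e k.castSucc + e j.castSucc), 0) ∈
      Om (act h (by omega)) (Fin.last n) ∧
    TQ h (by omega) q (e (Fin.last n) + (e k.castSucc + e j.castSucc), 0) =
      q (xX h (of (Sum.inl k))) * q (xX h (of (Sum.inl j))) * (q (tA h (Fin.last n)))⁻¹ *
        TQ h (by omega) q (e k.castSucc + e j.castSucc, 0) := by
  have e1 : clr (of (Sum.inl k) * of (Sum.inl j) : Fr n) = e k + e j := by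
    rw [clr_mul, clr_a, clr_a]
  have e2 : WD (of (Sum.inl k) * of (Sum.inl j) : Fr n) = 0 := by
    rw [WD_mul, WD_a, WD_a, clr_a, clr_a, om_e_e]; ring
  have e3 : wn (hs (of (Sum.inl k) * of (Sum.inl j) : Fr n)) = 2 := by
    rw [map_mul, wn_mul, hs_a, hs_a, wn_e, wn_e, om_e_e]; ring
  have h1 := Tw_sum h hn q hq hX k hk
    (g := tB h k.castSucc * (tB h j.castSucc * ((tA h j.castSucc)⁻¹ * tC h hjk)))
    (y := of (Sum.inl k) * of (Sum.inl j)) ((MR h 0 n).mul_mem (mB h k)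
      ((MR h 0 n).mul_mem (mB h j)
      ((MR h 0 n).mul_mem ((MR h 0 n).inv_mem (mA h j)) (mC h hjk))))
    (by
      have e5 : (e j.castSucc + e k.castSucc : V (n + 1)) = e k.castSucc + e j.castSucc :=
        add_comm _ _
      rw [g01_act h (by omega), e1, map_add, emb_e, emb_e, e2, e5])
  rw [e1, e2, e3, map_add, emb_e, emb_e, map_mul (xX h), map_mul q] at h1
  have e4 : (1 : ℤ) - 2 = -1 := by ring
  rw [e4, zpow_neg_one] at h1
  exact h1

include hq hX hk hjk in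
/-- The honest lantern. -/
theorem lan :
    TQ h (by omega) q (e k.castSucc + e j.castSucc, 0) *
      TQ h (by omega) q (e j.castSucc + e (Fin.last n), 0) *
      TQ h (by omega) q (e k.castSucc + e (Fin.last n), 0) =
    TQ h (by omega) q (e k.castSucc, 0) * TQ h (by omega) q (e j.castSucc, 0) *
      TQ h (by omega) q (e (Fin.last n), 0) *
      TQ h (by omega) q (e k.castSucc + e j.castSucc + e (Fin.last n), 0) := by
  have hn1 : 1 ≤ n := by omega
  obtain ⟨m1, s1⟩ := sum_k h hn q hq hX (j := j) hk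
  obtain ⟨m2, s2⟩ := sum_j h hn q hq hX hk hjk
  obtain ⟨m3, m4, s3⟩ := sum_jk h hn q hq hX hk hjk
  have mk := (Tw_A h hn q hq k.castSucc).1
  have mj := (Tw_A h hn q hq j.castSucc).1
  have ml := (Tw_A h hn q hq (Fin.last n)).1
  have tl := (Tw_A h hn q hq (Fin.last n)).2
  have r1 : e j.castSucc + e (Fin.last n) = (e (Fin.last n) + e j.castSucc : V (n + 1)) :=
    add_comm _ _
  have r2 : e k.castSucc + e (Fin.last n) = (e (Fin.last n) + e k.castSucc : V (n + 1)) :=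
    add_comm _ _
  have r3 : e k.castSucc + e j.castSucc + e (Fin.last n) =
      (e (Fin.last n) + (e k.castSucc + e j.castSucc) : V (n + 1)) := by abel
  rw [r1, r2, r3, s3, ← tl]
  have s1' := mul_inv_eq_iff_eq_mul.2 s1
  have s2' := mul_inv_eq_iff_eq_mul.2 s2
  rw [← s1', ← s2']
  have z : ∀ u v : V (n + 1), (∀ i, (u i).2 = 0) → (∀ i, (v i).2 = 0) → om u v = 0 := by
    intro u v hu hv
    refine Finset.sum_eq_zero fun i _ => ?_
    rw [hu, hv]; ring
  have ze : ∀ i k : Fin (n + 1), ((e i : V (n + 1)) k).2 = 0 := by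
    intro i k
    by_cases hik : k = i
    · rw [hik, e_self]
    · rw [e_ne hik]; rfl
  have za : ∀ u v : V (n + 1), (∀ i, (u i).2 = 0) → (∀ i, (v i).2 = 0) →
      ∀ i, ((u + v) i).2 = 0 := by
    intro u v hu hv i
    rw [Pi.add_apply, Prod.snd_add, hu, hv, add_zero]
  exact lan_alg
    (comm_of_om h hn q hq mk mj (z _ _ (ze _) (ze _)))
    (comm_of_om h hn q hq mk ml (z _ _ (ze _) (ze _)))
    (comm_of_om h hn q hq mj ml (z _ _ (ze _) (ze _)))
    (comm_of_om h hn q hq m1 mk (z _ _ (za _ _ (ze _) (ze _)) (ze _)))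
    (comm_of_om h hn q hq m1 mj (z _ _ (za _ _ (ze _) (ze _)) (ze _)))
    (comm_of_om h hn q hq m1 ml (z _ _ (za _ _ (ze _) (ze _)) (ze _)))
    (comm_of_om h hn q hq m2 mj (z _ _ (za _ _ (ze _) (ze _)) (ze _)))
    (comm_of_om h hn q hq m2 ml (z _ _ (za _ _ (ze _) (ze _)) (ze _)))
    (comm_of_om h hn q hq m3 m2 (z _ _ (za _ _ (ze _) (ze _)) (za _ _ (ze _) (ze _))))
    (comm_of_om h hn q hq m3 m1 (z _ _ (za _ _ (ze _) (ze _)) (za _ _ (ze _) (ze _))))
    (comm_of_om h hn q hq m2 m1 (z _ _ (za _ _ (ze _) (ze _)) (za _ _ (ze _) (ze _))))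

end lan

end Pool.Agent.H.MP_59b15d_al.H73X
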