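/-
The lantern with a separating curve of genus one; the separating twist is central.
-/
import Pool.Agent.H.MP_59b15d_al.h73x.Lx
import Pool.Agent.H.MP_59b15d_al.pk.Eta3

set_option autoImplicit false

namespace Pool.Agent.H.MP_59b15d_al.H73X

open Pool.Agent.H.MP_59b15d_al.SP
open Pool.Agent.H.MP_59b15d_al.H93C
open Pool.MP_59b15d_al.H24T Pool.MP_59b15d_al.H76R Pool.MP_59b15d_al.H73E
open Pool.MP_59b15d_al.H60G
open Pool.MP_59b15d_al.H95G (cf)
open FreeGroup (of)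

variable {n : ℕ} {G : Type*} [Group G] {a b : Fin (n + 1) → G} {Q : Type*} [Group Q]

/-- A step of the half turn. -/
theorem act_st (h : IsSurf a b) (hn : 1 ≤ n) (i : Fin (n + 1)) (x : U (n + 1)) {p r : ℤ}
    (hp : om (e i) x.1 = p) (hr' : om (f i) x.1 = r) :
    act h hn ((tA h i)⁻¹ * tB h i) x =
      x - r • ((f i, 2) - (0, 1) : U (n + 1)) - (p - r) • ((e i, 0) - (0, 1) : U (n + 1)) ∧
    om (e i) (act h hn ((tA h i)⁻¹ * tB h i) x).1 = p - r ∧
    om (f i) (act h hn ((tA h i)⁻¹ * tB h i) x).1 = p := by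
  have h1 : act h hn ((tA h i)⁻¹ * tB h i) x =
      x - r • ((f i, 2) - (0, 1) : U (n + 1)) - (p - r) • ((e i, 0) - (0, 1) : U (n + 1)) := by
    rw [act_mul', act_tB, act_tAi, hr']
    have h2 : om (e i) (x - r • ((f i, 2) - (0, 1) : U (n + 1))).1 = p - r := by
      change om (e i) (x.1 - r • (f i - 0)) = p - r
      rw [sub_zero, om_sub_right, om_smul_right, om_e_f, hp]; ring
    rw [h2]
  refine ⟨h1, ?_, ?_⟩
  · rw [h1]
    change om (e i) (x.1 - r • (f i - 0) - (p - r) • (e i - 0)) = _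
    rw [sub_zero, sub_zero, om_sub_right, om_sub_right, om_smul_right, om_smul_right, om_e_f,
      om_e_e, hp]; ring
  · rw [h1]
    change om (f i) (x.1 - r • (f i - 0) - (p - r) • (e i - 0)) = _
    rw [sub_zero, sub_zero, om_sub_right, om_sub_right, om_smul_right, om_smul_right, om_f_f,
      om_f_e, hr']; ring

/-- The square of the half turn acts trivially. -/
theorem act_hr2 (h : IsSurf a b) (hn : 1 ≤ n) (i : Fin (n + 1)) (x : U (n + 1)) :
    act h hn (((tA h i)⁻¹ * tB h i) ^ 6) x = x := by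
  obtain ⟨p, hp⟩ : ∃ p, om (e i) x.1 = p := ⟨_, rfl⟩
  obtain ⟨r, hr'⟩ : ∃ r, om (f i) x.1 = r := ⟨_, rfl⟩
  obtain ⟨s1, p1, r1⟩ := act_st h hn i x hp hr'
  obtain ⟨s2, p2, r2⟩ := act_st h hn i _ p1 r1
  obtain ⟨s3, p3, r3⟩ := act_st h hn i _ p2 r2
  obtain ⟨s4, p4, r4⟩ := act_st h hn i _ p3 r3
  obtain ⟨s5, p5, r5⟩ := act_st h hn i _ p4 r4
  obtain ⟨s6, p6, r6⟩ := act_st h hn i _ p5 r5
  have h6 : ((tA h i)⁻¹ * tB h i) ^ 6 = ((tA h i)⁻¹ * tB h i) * (((tA h i)⁻¹ * tB h i) *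
      (((tA h i)⁻¹ * tB h i) * (((tA h i)⁻¹ * tB h i) * (((tA h i)⁻¹ * tB h i) *
      ((tA h i)⁻¹ * tB h i))))) := by
    simp only [pow_succ, pow_zero, one_mul, mul_assoc]
  rw [h6]
  simp only [act_mul' h hn ((tA h i)⁻¹ * tB h i)] at s1 s2 s3 s4 s5 s6 ⊢
  rw [s6, s5, s4, s3, s2, s1]
  module

/-- The separating twist has trivial shift. -/
theorem TL_sep (h : IsSurf a b) (hn : 1 ≤ n) (i : Fin (n + 1)) :
    TL a b (((tA h i)⁻¹ * tB h i) ^ 6).1 0 := by
  have h1 : H1 h (((tA h i)⁻¹ * tB h i) ^ 6).1 = 1 := by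
    refine LinearEquiv.ext fun v => ?_
    exact congrArg Prod.fst (act_hr2 h hn i (v, 0))
  obtain ⟨y, hy⟩ := exists_TL h (((tA h i)⁻¹ * tB h i) ^ 6).2 h1
  have h2 : y = 0 := by
    have h3 : ∀ v, om y v = 0 := fun v => by
      have h4 := act_TL h hn (((tA h i)⁻¹ * tB h i) ^ 6) hy (v, 0)
      rw [act_hr2] at h4
      have h5 := congrArg Prod.snd h4
      change (0 : ℤ) = 0 + 2 * om y v at h5
      omega
    funext i
    have h7 := h3 (e i)
    have h8 := h3 (f i)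
    rw [om_e] at h7
    rw [om_f] at h8
    refine Prod.ext ?_ ?_
    · change (y i).1 = 0
      omega
    · change (y i).2 = 0
      omega
  rwa [h2] at hy

theorem sep_inv (h : IsSurf a b) (i : Fin (n + 1)) :
    (tA h i * (tB h i)⁻¹) ^ 6 = (((tA h i)⁻¹ * tB h i) ^ 6)⁻¹ := by
  have h1 : tA h i * (tB h i)⁻¹ = tA h i * ((tA h i)⁻¹ * tB h i)⁻¹ * (tA h i)⁻¹ := by group
  have h2 : ((tA h i)⁻¹ * tB h i) ^ 6 = hr h i ^ 2 := by rw [hr, ← pow_mul]
  rw [h1, conj_pow, inv_pow, h2, ← inv_pow, ((hr_comm h i).symm.inv_right.pow_right 2).eq,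
    mul_inv_cancel_right]

/-- The field `sc`. -/
theorem fld_sc (h : IsSurf a b) (hn : 1 ≤ n) (q : MMs h →* Q) (hq : Cz h q) (i : Fin (n + 1))
    (hs : Function.Surjective q) (y : Q) : Commute (q ((tA h i * (tB h i)⁻¹) ^ 6)) y := by
  obtain ⟨x, rfl⟩ := hs y
  rw [sep_inv, map_inv]
  exact (hq _ (TL_sep h hn i) x).inv_left

/-- The field `s6`. -/
theorem fld_s6 (h : IsSurf a b) (hn : 2 ≤ n) (q : MMs h →* Q) (hq : Cz h q) (i : Fin (n + 1)) :
    (TQ h (by omega) q (e i, 0) * TQ h (by omega) q (f i, 2)) ^ 6 =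
      q ((tA h i * (tB h i)⁻¹) ^ 6) := by
  rw [(Tw_A h hn q hq i).2, (Tw_B h hn q hq i).2, ← map_mul, ← map_pow]

section lan2

variable (h : IsSurf a b) (hn : 2 ≤ n) (q : MMs h →* Q) (hq : Cz h q)
  (hX : ∀ y : Fr n, hs y = 1 → q (xX h y) = 1) {j k : Fin n}
  (hk : ((Fin.last n : Fin (n + 1)) : ℕ) = k.castSucc + 1)
  (hjk : (k.castSucc : ℕ) = j.castSucc + 1)

include hq hX hk hjk in
/-- The field `lan2`. -/
theorem fld_lan2 :
    TQ h (by omega) q (e (Fin.last n) + e k.castSucc, 2) *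
      (TQ h (by omega) q (e k.castSucc, 2))⁻¹ =
    TQ h (by omega) q (e (Fin.last n) + e k.castSucc, 0) *
      (TQ h (by omega) q (e k.castSucc, 0))⁻¹ *
      (TQ h (by omega) q (e (Fin.last n), 2) * (TQ h (by omega) q (e (Fin.last n), 0))⁻¹) *
      (q ((tA h (Fin.last n) * (tB h (Fin.last n))⁻¹) ^ 6))⁻¹ := by
  have hn1 : 1 ≤ n := by omega
  have hkn : (k : ℕ) + 1 = n := by
    rw [Fin.val_last, Fin.val_castSucc] at hk
    exact hk.symm
  -- the element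
  obtain ⟨τ, hτ, hTL⟩ := exists_bp h hjk (f k.castSucc) (Or.inr (Or.inr (Or.inr rfl)))
  have mτ : τ ∈ MR h 0 n := MR_mono h (Nat.zero_le _) (by rw [Fin.val_castSucc]; omega) hτ
  let τ' : MMs h := ⟨τ, MR_le_MMs h _ _ mτ⟩
  have hTL' : TL a b (τ'⁻¹).1 (-f k.castSucc) := hTL.inv
  have c2 : clr (of (Sum.inl k) * cf k : Fr n) = e k := by
    have h1 : clr (cf k : Fr n) = 0 := by
      rw [clr, PK.hs_cf]; rfl
    rw [clr_mul, clr_a, h1, add_zero]
  have w2 : WD (of (Sum.inl k) * cf k : Fr n) = 2 := by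
    have h1 : clr (cf k : Fr n) = 0 := by
      rw [clr, PK.hs_cf]; rfl
    have h2 : WD (cf k : Fr n) = 2 := by
      rw [WD, PK.hs_cf]
      have := wd_z (m := n) 1
      rw [zpow_one] at this
      rw [this]; norm_num
    rw [WD_mul, WD_a, clr_a, h1, h2, om_zero_right]; ring
  have n2 : wn (hs (of (Sum.inl k) * cf k : Fr n)) = 3 := by
    have h1 := PK.wn_zz (n := n) 1
    rw [zpow_one] at h1
    rw [map_mul, wn_mul, hs_a, wn_e, PK.hs_cf, h1]
    have h3 : om (e k : V n) (Hs.z : Hs n).v = 0 := by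
      change om (e k : V n) 0 = 0
      exact om_zero_right _
    rw [h3]; norm_num
  have h1 := Tw_sum h hn q hq hX k hk (g := τ'⁻¹ * (tB h k.castSucc * (tA h k.castSucc)⁻¹))
    (y := of (Sum.inl k) * cf k) ((MR h 0 n).mul_mem ((MR h 0 n).inv_mem mτ)
      ((MR h 0 n).mul_mem (mB h k) ((MR h 0 n).inv_mem (mA h k))))
    (by
      rw [act_mul', g1_act h (by omega), act_TL h (by omega) _ hTL', c2, w2, emb_e]
      refine Prod.ext ?_ ?_
      · change e k.castSucc + 0 = e k.castSucc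
        rw [add_zero]
      · change (0 : ℤ) + 2 * om (-f k.castSucc) (e k.castSucc) = 2
        rw [om_neg_left, om_f_e]; norm_num)
  rw [c2, w2, n2, emb_e] at h1
  have h2 := (sum_k h hn q hq hX hk (j := j)).2
  have h3 := h1.2.2
  -- the push about the handle
  have h4 : xX h (cf k) * tA h (Fin.last n) ^ (-2 : ℤ) =
      ((tA h k.castSucc)⁻¹ * tB h k.castSucc) ^ 6 *
      (gM h k hk * tA h (Fin.last n) * (gM h k hk)⁻¹) * (tA h (Fin.last n))⁻¹ := by
    apply Subtype.ext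
    have h5 := PK.Yk_eq h hkn hk
    rw [← PK.XX_cf_Yk] at h5
    exact h5
  obtain ⟨σ, hσ, h6⟩ := PK.sep_conj h hkn
  have h7 : ((tA h k.castSucc)⁻¹ * tB h k.castSucc) ^ 6 =
      (⟨σ, hσ⟩ : MMs h) * ((tA h (Fin.last n))⁻¹ * tB h (Fin.last n)) ^ 6 *
        (⟨σ, hσ⟩ : MMs h)⁻¹ := Subtype.ext h6
  have h8 : q (((tA h k.castSucc)⁻¹ * tB h k.castSucc) ^ 6) =
      (q ((tA h (Fin.last n) * (tB h (Fin.last n))⁻¹) ^ 6))⁻¹ := by
    rw [h7, map_mul, map_mul, map_inv, sep_inv, map_inv, inv_inv,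
      ← (hq _ (TL_sep h hn1 (Fin.last n)) ⟨σ, hσ⟩).eq, mul_inv_cancel_right]
  have h9 : q (gM h k hk * tA h (Fin.last n) * (gM h k hk)⁻¹) =
      TQ h (by omega) q (e (Fin.last n), 2) := (TQ_eq h hn q hq _ (act_gM h hn1 k hk)).symm
  have h10 := congrArg q h4
  rw [map_mul, map_mul, map_mul, h8, h9, map_zpow, map_inv] at h10
  have tl := (Tw_A h hn q hq (Fin.last n)).2
  have hc : ∀ x : MMs h, Commute (q ((tA h (Fin.last n) * (tB h (Fin.last n))⁻¹) ^ 6)) (q x) := by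
    intro x
    rw [sep_inv, map_inv]
    exact (hq _ (TL_sep h hn1 (Fin.last n)) x).inv_left
  rw [h3, mul_inv_cancel_right, h2, mul_inv_cancel_right, map_mul, map_mul, tl]
  have e1 : (1 - 3 : ℤ) = -2 := by norm_num
  rw [e1, mul_assoc, h10]
  generalize q ((tA h (Fin.last n) * (tB h (Fin.last n))⁻¹) ^ 6) = s at hc
  have hc2 : Commute s (TQ h (by omega) q (e (Fin.last n), 2)) := by
    rw [← h9]
    exact hc _
  have hc3 := hc (tA h (Fin.last n))
  have hc4 : Commute s (TQ h (by omega) q (e (Fin.last n), 2) * (q (tA h (Fin.last n)))⁻¹) :=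
    hc2.mul_right hc3.inv_right
  have hc5 := (hc4.inv_left).eq
  rw [mul_assoc s⁻¹, hc5]
  simp only [mul_assoc]

end lan2

end Pool.Agent.H.MP_59b15d_al.H73X
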