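/-
The local data of a quotient of the mapping class group.
-/
import Pool.Agent.H.MP_59b15d_al.h73x.Ly
import Pool.Agent.H.MP_59b15d_al.pk.Cen
import Pool.Agent.H.MP_59b15d_al.h40th.Inn

set_option autoImplicit false

namespace Pool.Agent.H.MP_59b15d_al.H73X

open Pool.Agent.H.MP_59b15d_al.SP
open Pool.Agent.H.MP_59b15d_al.H93C
open Pool.MP_59b15d_al.H24T Pool.MP_59b15d_al.H76R Pool.MP_59b15d_al.H73E
open Pool.MP_59b15d_al.H60G
open FreeGroup (of)

variable {n : ℕ} {G : Type*} [Group G] {a b : Fin (n + 1) → G} {Q : Type*} [Group Q]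

/-- **The local data.** -/
theorem exists_Loc (h : IsSurf a b) (hn : 4 ≤ n) (N : Subgroup (MulAut G))
    (hN : ∀ φ ∈ MMs h, ∀ x ∈ N, φ * x * φ⁻¹ ∈ N) (hI : ∀ x : G, MulAut.conj x ∈ N)
    (hf : N.relIndex (MMs h) ≠ 0) (hR : Rels h N) (q : MMs h →* Q)
    (hqs : Function.Surjective q) (hqN : ∀ x : MMs h, q x = 1 ↔ x.1 ∈ N) :
    ∃ (T : U (n + 1) → Q) (s : Q) (M : ℕ) (i j l : Fin (n + 1)),
      Loc q (act h (by omega)) T s M i j l := by
  have hn1 : 1 ≤ n := by omega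
  have hn2 : 2 ≤ n := by omega
  -- elements with trivial shift are central
  have hG : ∀ K : Subgroup (MulAut G), (∀ ψ ∈ MMs h, ∀ x ∈ K, ψ * x * ψ⁻¹ ∈ K) →
      (∀ r ∈ MR h 0 n, H1 h r = 1 → r ∈ K) → ∀ φ ∈ MMs h, H1 h φ = 1 → φ ∈ K := by
    intro K hK hr φ hφ h1
    have h2 := PK.torelli h hn hφ h1
    refine (Subgroup.closure_le _).2 ?_ h2
    rintro x ⟨ψ, hψ, r, hr1, hr2, rfl⟩
    exact hK ψ hψ r (hr r hr1 hr2)
  obtain ⟨M0, hM0, hM1⟩ := exists_exp h N hN hf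
  have hCz : Cz h q := by
    intro φ hφ ψ
    have h1 := central_of_TL h hn N hN hI hR (fun i j hij s hs' => exists_bp h hij s hs') hG
      M0 hM1 φ.2 (u := 0) (by rwa [smul_zero])
    have h2 : φ.1 * ψ.1 * φ.1⁻¹ * ψ.1⁻¹ ∈ N := h1.2 ψ.1 ψ.2
    have h3 : q (φ * ψ * φ⁻¹ * ψ⁻¹) = 1 := (hqN _).2 h2
    rw [map_mul, map_mul, map_mul, map_inv, map_inv, mul_inv_eq_one,
      mul_inv_eq_iff_eq_mul] at h3
    exact h3
  have hX : ∀ y : Fr n, hs y = 1 → q (xX h y) = 1 := fun y hy =>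
    (hqN _).2 (XX_mem_of_hs h hn1 N hN hR y hy)
  obtain ⟨M, hM2, hM3⟩ := fld_cen h hn N hN hI hf hR q hqs fun x => (hqN x).2
  let k : Fin n := ⟨n - 1, by omega⟩
  let j : Fin n := ⟨n - 2, by omega⟩
  have hk : ((Fin.last n : Fin (n + 1)) : ℕ) = k.castSucc + 1 := by
    rw [Fin.val_last, Fin.val_castSucc]
    change n = n - 1 + 1
    omega
  have hjk : (k.castSucc : ℕ) = j.castSucc + 1 := by
    rw [Fin.val_castSucc, Fin.val_castSucc]
    change n - 1 = n - 2 + 1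
    omega
  refine ⟨TQ h hn1 q, q ((tA h (Fin.last n) * (tB h (Fin.last n))⁻¹) ^ 6), M, k.castSucc,
    j.castSucc, Fin.last n, ?_⟩
  exact
    { hij := (ne_of_hij hjk).symm
      hil := ne_of_hij hk
      hjl := Fin.ne_of_lt (Fin.castSucc_lt_last j)
      fix := act_fix h hn1
      sp := act_sp h hn1
      par := act_par h hn1
      surj := act_surj h hn1
      two := fld_two h hn1
      tact := fun u hu => tact h hn2 q hCz u hu
      eqv := fun g u hu => eqv h hn2 q hCz g u hu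
      sym := fun u hu => sym h hn2 q hCz u hu
      lan := lan h hn2 q hCz hX hk hjk
      lan2 := fld_lan2 h hn2 q hCz hX hk hjk
      sc := fld_sc h hn1 q hCz _ hqs
      s6 := fld_s6 h hn2 q hCz _
      hM := hM2
      cen := hM3
      gen := fun g hg => fld_gen h hn2 q hCz hN hR (fun x hx => (hqN x).2 hx)
        (fld_sc h hn1 q hCz _ hqs) rfl g hg
      inn := fun v => by
        obtain ⟨x, hx⟩ := H40T.exists_inner h hn1 v
        refine ⟨⟨MulAut.conj x, Subgroup.subset_closure (Or.inl ⟨x, rfl⟩)⟩,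
          (hqN _).2 (hI x), fun y => ?_⟩
        rw [act_TL h hn1 _ hx, om_smul_left]
        push_cast
        refine Prod.ext rfl ?_
        change y.2 + 2 * ((n : ℤ) * om v y.1) = y.2 + 2 * ((n : ℤ) + 1 - 1) * om v y.1
        ring }

end Pool.Agent.H.MP_59b15d_al.H73X
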