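/-
A normal subgroup of finite index modulo which the pushes factor through the Heisenberg group
contains a congruence subgroup.
-/
import Pool.Agent.H.MP_59b15d_al.h73x.Mk
import Pool.Agent.H.MP_59b15d_al.h40x.Fin
import Pool.Agent.H.MP_59b15d_al.h93c.Final
import Pool.Agent.H.MP_59b15d_al.h11r.Sg

set_option autoImplicit false

namespace Pool.Agent.H.MP_59b15d_al.H73X

open Pool.Agent.H.MP_59b15d_al.SP
open Pool.Agent.H.MP_59b15d_al.H93C
open Pool.MP_59b15d_al.H24T Pool.MP_59b15d_al.H76R Pool.MP_59b15d_al.H73E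
open Pool.MP_59b15d_al.H76 (InnMod)
open Pool.MP_59b15d_al.H60G Pool.MP_59b15d_al.H95G
open FreeGroup (of)

variable {n : ℕ} {G : Type*} [Group G] {a b : Fin (n + 1) → G}

/-- A subgroup of finite index of the mapping class group of a closed surface of genus
`n + 1 ≥ 5`, normalised by it and containing the inner automorphisms, modulo which the pushes
satisfy the relations of the Heisenberg group, contains a congruence subgroup. -/
theorem end_all (h : IsSurf a b) (hn : 4 ≤ n) (N : Subgroup (MulAut G))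
    (hN : ∀ φ ∈ MMs h, ∀ x ∈ N, φ * x * φ⁻¹ ∈ N) (hI : ∀ x : G, MulAut.conj x ∈ N)
    (hf : N.relIndex (MMs h) ≠ 0) (hR : Rels h N) :
    ∃ Γ : Subgroup G, Γ.Characteristic ∧ Γ.FiniteIndex ∧
      ∀ φ ∈ MMs h, InnMod Γ φ → φ ∈ N := by
  have hnm : (N.subgroupOf (MMs h)).Normal := ⟨fun x hx g => hN g.1 g.2 x.1 hx⟩
  have hq : ∀ x : MMs h, QuotientGroup.mk' (N.subgroupOf (MMs h)) x = 1 ↔ x.1 ∈ N := fun x => by
    rw [QuotientGroup.mk'_apply, QuotientGroup.eq_one_iff]
    exact Iff.rfl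
  have hqs := QuotientGroup.mk'_surjective (N.subgroupOf (MMs h))
  have hfin : Finite (MMs h ⧸ N.subgroupOf (MMs h)) := Nat.finite_of_card_ne_zero hf
  obtain ⟨T, s, M, i, j, l, D⟩ := exists_Loc h hn N hN hI hf hR _ hqs hq
  exact H40X.end_loc h hn (by omega) N hN hI hf _ hqs hq D (R1.sg_cube D)

/-- **Theorem A.**  A subgroup of index smaller than `2 ^ binom(g, 3)`, `g = n + 1 ≥ 5`, normalised
by the mapping class group and containing the inner automorphisms, contains a congruence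
subgroup. -/
theorem theoremA_full (h : IsSurf a b) (hn : 4 ≤ n) (N : Subgroup (MulAut G))
    (hN : ∀ φ ∈ MMs h, ∀ x ∈ N, φ * x * φ⁻¹ ∈ N) (hI : ∀ x : G, MulAut.conj x ∈ N)
    (hf : N.relIndex (MMs h) ≠ 0) (hlt : N.relIndex (MMs h) < 2 ^ (n + 1).choose 3) :
    ∃ Γ : Subgroup G, Γ.Characteristic ∧ Γ.FiniteIndex ∧
      ∀ φ ∈ MMs h, InnMod Γ φ → φ ∈ N := by
  obtain ⟨h1, h2, h3⟩ := growth' h N hN (by omega) hf hlt
  exact end_all h hn N hN hI hf ⟨h1, h2, h3⟩

end Pool.Agent.H.MP_59b15d_al.H73X
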